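import Pool.Agent.Q194.MGHD.Exist

set_option autoImplicit false

namespace Pool.Agent.Q194.MGHD

open Filter Topology Set
open scoped ContDiff Matrix

section
variable {I : Set ℝ} {lo hi : ℝ → ℝ} {s₀ : ℝ}

lemma limits_top (h0 : s₀ ∈ I) (hlo : MonotoneOn lo I) (hhi : AntitoneOn hi I)
    (hle : ∀ s ∈ I, lo s ≤ hi s) :
    ∃ l h : ℝ, l ∈ Icc (lo s₀) (hi s₀) ∧ h ∈ Icc (lo s₀) (hi s₀) ∧
      Tendsto (fun s : I => lo s) atTop (𝓝 l) ∧ Tendsto (fun s : I => hi s) atTop (𝓝 h) := by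
  have : Nonempty I := ⟨⟨s₀, h0⟩⟩
  have b1 : ∀ s : I, lo s ≤ hi s₀ := by
    intro s
    rcases le_total s.1 s₀ with h | h
    · exact (hlo s.2 h0 h).trans (hle _ h0)
    · exact (hle _ s.2).trans (hhi h0 s.2 h)
  have b2 : ∀ s : I, lo s₀ ≤ hi s := by
    intro s
    rcases le_total s.1 s₀ with h | h
    · exact (hle _ h0).trans (hhi s.2 h0 h)
    · exact (hlo h0 s.2 h).trans (hle _ s.2)
  have m1 : Monotone (fun s : I => lo s) := fun a b hab => hlo a.2 b.2 hab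
  have m2 : Antitone (fun s : I => hi s) := fun a b hab => hhi a.2 b.2 hab
  have B1 : BddAbove (range fun s : I => lo s) := ⟨hi s₀, by rintro _ ⟨s, rfl⟩; exact b1 s⟩
  have B2 : BddBelow (range fun s : I => hi s) := ⟨lo s₀, by rintro _ ⟨s, rfl⟩; exact b2 s⟩
  refine ⟨_, _, ⟨?_, ?_⟩, ⟨?_, ?_⟩, tendsto_atTop_ciSup m1 B1, tendsto_atTop_ciInf m2 B2⟩
  · exact le_ciSup B1 (⟨s₀, h0⟩ : I)
  · exact ciSup_le b1
  · exact le_ciInf b2
  · exact ciInf_le B2 (⟨s₀, h0⟩ : I)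

lemma limits_bot (h0 : s₀ ∈ I) (hlo : AntitoneOn lo I) (hhi : MonotoneOn hi I)
    (hle : ∀ s ∈ I, lo s ≤ hi s) :
    ∃ l h : ℝ, l ∈ Icc (lo s₀) (hi s₀) ∧ h ∈ Icc (lo s₀) (hi s₀) ∧
      Tendsto (fun s : I => lo s) atBot (𝓝 l) ∧ Tendsto (fun s : I => hi s) atBot (𝓝 h) := by
  have : Nonempty I := ⟨⟨s₀, h0⟩⟩
  have b1 : ∀ s : I, lo s ≤ hi s₀ := by
    intro s
    rcases le_total s.1 s₀ with h | h
    · exact (hle _ s.2).trans (hhi s.2 h0 h)
    · exact (hlo h0 s.2 h).trans (hle _ h0)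
  have b2 : ∀ s : I, lo s₀ ≤ hi s := by
    intro s
    rcases le_total s.1 s₀ with h | h
    · exact (hlo s.2 h0 h).trans (hle _ s.2)
    · exact (hle _ h0).trans (hhi h0 s.2 h)
  have m1 : Antitone (fun s : I => lo s) := fun a b hab => hlo a.2 b.2 hab
  have m2 : Monotone (fun s : I => hi s) := fun a b hab => hhi a.2 b.2 hab
  have B1 : BddAbove (range fun s : I => lo s) := ⟨hi s₀, by rintro _ ⟨s, rfl⟩; exact b1 s⟩
  have B2 : BddBelow (range fun s : I => hi s) := ⟨lo s₀, by rintro _ ⟨s, rfl⟩; exact b2 s⟩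
  refine ⟨_, _, ⟨?_, ?_⟩, ⟨?_, ?_⟩, tendsto_atBot_ciSup m1 B1, tendsto_atBot_ciInf m2 B2⟩
  · exact le_ciSup B1 (⟨s₀, h0⟩ : I)
  · exact ciSup_le b1
  · exact le_ciInf b2
  · exact ciInf_le B2 (⟨s₀, h0⟩ : I)

lemma monotoneOn_of_hasDerivAt {f f' : ℝ → ℝ} (hI : IsOpen I) (hc : Convex ℝ I)
    (hd : ∀ s ∈ I, HasDerivAt f (f' s) s) (h : ∀ s ∈ I, 0 ≤ f' s) : MonotoneOn f I := by
  apply monotoneOn_of_deriv_nonneg hc (fun s hs => (hd s hs).continuousAt.continuousWithinAt)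
  · rw [hI.interior_eq]
    exact fun s hs => (hd s hs).differentiableAt.differentiableWithinAt
  · rw [hI.interior_eq]
    intro s hs
    rw [(hd s hs).deriv]
    exact h s hs

lemma antitoneOn_of_hasDerivAt {f f' : ℝ → ℝ} (hI : IsOpen I) (hc : Convex ℝ I)
    (hd : ∀ s ∈ I, HasDerivAt f (f' s) s) (h : ∀ s ∈ I, f' s ≤ 0) : AntitoneOn f I := by
  apply antitoneOn_of_deriv_nonpos hc (fun s hs => (hd s hs).continuousAt.continuousWithinAt)
  · rw [hI.interior_eq]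
    exact fun s hs => (hd s hs).differentiableAt.differentiableWithinAt
  · rw [hI.interior_eq]
    intro s hs
    rw [(hd s hs).deriv]
    exact h s hs

end

section
variable {φ₀ ψ : ℝ → ℝ} (hφ : ContDiff ℝ ∞ φ₀) (hψ : ContDiff ℝ ∞ ψ) (hn : ∀ y, ψ y ≠ -4)
include hφ hψ hn

lemma Psi_SS_ne {p : ℝ × ℝ} (hp : p ∈ GG ψ '' RR ψ) : Psi (SS φ₀ ψ) p ≠ -4 := by
  obtain ⟨q, hq, rfl⟩ := hp
  rw [Psi_SS hφ hψ hn hq]
  exact hn _

/-- In characteristic coordinates, causal curves satisfy `y' z' ≤ 0`. -/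
lemma curve_coords {I : Set ℝ} {γ : ℝ → ℝ × ℝ}
    (h : IsCausalCurve (GG ψ '' RR ψ) (Psi (SS φ₀ ψ)) I γ) {s : ℝ} (hs : s ∈ I) :
    ∃ y' z' : ℝ, HasDerivAt (fun r => (gi ψ (γ r)).1) y' s ∧
      HasDerivAt (fun r => (gi ψ (γ r)).2) z' s ∧ y' * z' ≤ 0 ∧ z' - y' ≠ 0 := by
  have hp := h.mem s hs
  obtain ⟨hqR, hqp⟩ := gi_mem hp
  set q := gi ψ (γ s) with hq
  have hgi : DifferentiableAt ℝ (gi ψ) (γ s) := by
    have := (local_inv hψ hn hqR).2
    rw [hqp] at this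
    exact this.differentiableAt (by simp)
  have hd : DifferentiableAt ℝ (fun r => gi ψ (γ r)) s :=
    DifferentiableAt.comp (g := gi ψ) (f := γ) s hgi (h.differentiableAt s hs)
  set w := deriv (fun r => gi ψ (γ r)) s with hw
  have hdw : HasDerivAt (fun r => gi ψ (γ r)) w s := hd.hasDerivAt
  have h1 : HasDerivAt (fun r => (gi ψ (γ r)).1) w.1 s := hdw.fst
  have h2 : HasDerivAt (fun r => (gi ψ (γ r)).2) w.2 s := hdw.snd
  -- the derivative of `γ`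
  have hT : HasFDerivAt (tt ψ) (fderiv ℝ (tt ψ) q) (gi ψ (γ s)) :=
    ((contDiff_tt hψ hn).differentiable (by simp) _).hasFDerivAt
  have h3 : HasDerivAt (fun r => tt ψ (gi ψ (γ r))) (fderiv ℝ (tt ψ) q w) s := by
    have h4 := hT.comp_hasDerivAt s hdw
    exact h4
  have e3 : fderiv ℝ (tt ψ) q w = (w.2 - nn ψ q * w.1) / (4 + ψ q.1) := by
    have := fderiv_apply_eq (tt ψ) q w.1 w.2
    rw [Prod.mk.eta] at this
    rw [this, dt_tt hψ hn, dx_tt hψ hn]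
    have := c_ne hn q.1
    field_simp
    ring
  rw [e3] at h3
  set τ' := (w.2 - nn ψ q * w.1) / (4 + ψ q.1) with hτ'
  have h4 : HasDerivAt (fun r => GG ψ (gi ψ (γ r))) (τ', w.2 - 2 * τ') s :=
    h3.prodMk (h2.sub (h3.const_mul 2))
  have h5 : (fun r => GG ψ (gi ψ (γ r))) =ᶠ[𝓝 s] γ := by
    filter_upwards [h.isOpen.mem_nhds hs] with r hr
    exact (gi_mem (h.mem r hr)).2
  have h6 : deriv γ s = (τ', w.2 - 2 * τ') :=
    (h4.congr_of_eventuallyEq h5.symm).deriv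
  have hc := c_ne hn q.1
  have hnp := nn_pos hqR
  have hcτ : (4 + ψ q.1) * τ' = w.2 - nn ψ q * w.1 := by
    rw [hτ']
    field_simp
  have hΨ : Psi (SS φ₀ ψ) (γ s) = ψ q.1 := by
    rw [← hqp]
    exact Psi_SS hφ hψ hn hqR
  have h7 := h.causal s hs
  rw [hΨ, causal_iff (hn _), h6] at h7
  simp only at h7
  have e1 : w.2 - 2 * τ' + 2 * τ' = w.2 := by ring
  have e2 : w.2 - 2 * τ' - (2 + ψ q.1) * τ' = nn ψ q * w.1 := by linarith
  rw [e1, e2] at h7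
  have h8 : w.1 * w.2 ≤ 0 := by
    by_contra hcon
    push Not at hcon
    have := mul_pos hnp hcon
    linarith
  refine ⟨w.1, w.2, h1, h2, h8, ?_⟩
  intro h9
  have h10 : w.2 = w.1 := by linarith
  rw [h10] at h8
  have h11 : w.1 = 0 := mul_self_eq_zero.1 (le_antisymm h8 (mul_self_nonneg _))
  have h12 : w.2 = 0 := by rw [h10, h11]
  have h13 : τ' = 0 := by
    rw [h11, h12] at hcτ
    simp only [mul_zero, sub_zero] at hcτ
    exact (mul_eq_zero.1 hcτ).resolve_left hc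
  apply h.ne_zero s hs
  rw [h6, h12, h13]
  simp

lemma cauchy_SS : IsCauchyLine (GG ψ '' RR ψ) (Psi (SS φ₀ ψ)) := by
  intro I γ h hext
  have hne := fun p (hp : p ∈ GG ψ '' RR ψ) => Psi_SS_ne hφ hψ hn hp
  set Y : ℝ → ℝ := fun r => (gi ψ (γ r)).1 with hY
  set Z : ℝ → ℝ := fun r => (gi ψ (γ r)).2 with hZ
  have hγ : ∀ s ∈ I, γ s = GG ψ (Y s, Z s) := fun s hs => (gi_mem (h.mem s hs)).2.symm
  have hR : ∀ s ∈ I, (Y s, Z s) ∈ RR ψ := fun s hs => (gi_mem (h.mem s hs)).1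
  have hconv : Convex ℝ I := h.ordConnected.convex
  choose! y' z' hy' hz' hyz hzy using fun s (hs : s ∈ I) => curve_coords hφ hψ hn h hs
  have hYc : ContinuousOn Y I := fun s hs => (hy' s hs).continuousAt.continuousWithinAt
  have hZc : ContinuousOn Z I := fun s hs => (hz' s hs).continuousAt.continuousWithinAt
  -- existence
  have hex : ∃ s ∈ I, Z s = Y s := by
    by_contra hcon
    push Not at hcon
    obtain ⟨s₀, h0⟩ := h.nonempty
    -- limits contradict inextendibility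
    have top : ∀ l k : ℝ, l ∈ uIcc (Y s₀) (Z s₀) → k ∈ uIcc (Y s₀) (Z s₀) →
        Tendsto (fun s : I => Y s) atTop (𝓝 l) → Tendsto (fun s : I => Z s) atTop (𝓝 k) →
        False := by
      intro l k hl hk h1 h2
      have hlk : (l, k) ∈ RR ψ := RR_square (hR s₀ h0) hl hk
      refine hext.1 (GG ψ (l, k)) ⟨_, hlk, rfl⟩ ?_
      have h3 : Tendsto (fun s : I => GG ψ (Y s, Z s)) atTop (𝓝 (GG ψ (l, k))) :=
        ((contDiff_GG hψ hn).continuous.tendsto (l, k)).comp (h1.prodMk_nhds h2)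
      refine h3.congr fun s => (hγ s.1 s.2).symm
    have bot : ∀ l k : ℝ, l ∈ uIcc (Y s₀) (Z s₀) → k ∈ uIcc (Y s₀) (Z s₀) →
        Tendsto (fun s : I => Y s) atBot (𝓝 l) → Tendsto (fun s : I => Z s) atBot (𝓝 k) →
        False := by
      intro l k hl hk h1 h2
      have hlk : (l, k) ∈ RR ψ := RR_square (hR s₀ h0) hl hk
      refine hext.2 (GG ψ (l, k)) ⟨_, hlk, rfl⟩ ?_
      have h3 : Tendsto (fun s : I => GG ψ (Y s, Z s)) atBot (𝓝 (GG ψ (l, k))) :=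
        ((contDiff_GG hψ hn).continuous.tendsto (l, k)).comp (h1.prodMk_nhds h2)
      refine h3.congr fun s => (hγ s.1 s.2).symm
    -- the sign of `Z - Y`
    have hsign : (∀ s ∈ I, Y s ≤ Z s) ∨ (∀ s ∈ I, Z s ≤ Y s) := by
      by_contra hcon2
      push Not at hcon2
      obtain ⟨⟨a, ha, ha'⟩, ⟨b, hb, hb'⟩⟩ := hcon2
      obtain ⟨x, hx, hx'⟩ := hconv.isPreconnected.intermediate_value₂ ha hb hZc hYc ha'.le hb'.le
      exact hcon x hx hx'
    have hDar := hasDerivWithinAt_forall_lt_or_forall_gt_of_forall_ne hconv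
      (f := fun s => Z s - Y s) (f' := fun s => z' s - y' s) (m := 0)
      (fun s hs => ((hz' s hs).sub (hy' s hs)).hasDerivWithinAt) (fun s hs => hzy s hs)
    rcases hDar with hD | hD
    · -- `Z - Y` decreasing: `Y` increasing, `Z` decreasing
      have hy0 : ∀ s ∈ I, 0 ≤ y' s := by
        intro s hs
        by_contra hc
        push Not at hc
        have h1 : 0 ≤ z' s := by
          by_contra hc2
          push Not at hc2
          have := mul_pos_of_neg_of_neg hc hc2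
          have := hyz s hs
          linarith
        have := hD s hs
        linarith
      have hz0 : ∀ s ∈ I, z' s ≤ 0 := by
        intro s hs
        by_contra hc
        push Not at hc
        have h1 : y' s ≤ 0 := by
          by_contra hc2
          push Not at hc2
          have := mul_pos hc2 hc
          have := hyz s hs
          linarith
        have := hD s hs
        linarith
      have hYm := monotoneOn_of_hasDerivAt h.isOpen hconv hy' hy0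
      have hZm := antitoneOn_of_hasDerivAt h.isOpen hconv hz' hz0
      rcases hsign with hs | hs
      · obtain ⟨l, k, hl, hk, t1, t2⟩ := limits_top h0 hYm hZm hs
        rw [← uIcc_of_le (hs s₀ h0)] at hl hk
        exact top l k hl hk t1 t2
      · obtain ⟨l, k, hl, hk, t1, t2⟩ := limits_bot h0 hZm hYm hs
        rw [← uIcc_of_le (hs s₀ h0), uIcc_comm] at hl hk
        exact bot k l hk hl t2 t1
    · have hy0 : ∀ s ∈ I, y' s ≤ 0 := by
        intro s hs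
        by_contra hc
        push Not at hc
        have h1 : z' s ≤ 0 := by
          by_contra hc2
          push Not at hc2
          have := mul_pos hc hc2
          have := hyz s hs
          linarith
        have := hD s hs
        linarith
      have hz0 : ∀ s ∈ I, 0 ≤ z' s := by
        intro s hs
        by_contra hc
        push Not at hc
        have h1 : 0 ≤ y' s := by
          by_contra hc2
          push Not at hc2
          have := mul_pos_of_neg_of_neg hc2 hc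
          have := hyz s hs
          linarith
        have := hD s hs
        linarith
      have hYm := antitoneOn_of_hasDerivAt h.isOpen hconv hy' hy0
      have hZm := monotoneOn_of_hasDerivAt h.isOpen hconv hz' hz0
      rcases hsign with hs | hs
      · obtain ⟨l, k, hl, hk, t1, t2⟩ := limits_bot h0 hYm hZm hs
        rw [← uIcc_of_le (hs s₀ h0)] at hl hk
        exact bot l k hl hk t1 t2
      · obtain ⟨l, k, hl, hk, t1, t2⟩ := limits_top h0 hZm hYm hs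
        rw [← uIcc_of_le (hs s₀ h0), uIcc_comm] at hl hk
        exact top k l hk hl t2 t1
  obtain ⟨s, hs, hsz⟩ := hex
  have hs0 : (γ s).1 = 0 := by
    rw [hγ s hs]
    unfold GG tt
    simp only
    rw [hsz, sub_self, zero_div]
  exact ⟨s, ⟨hs, hs0⟩, fun r hr => meets_once hne h hr.1 hs hr.2 hs0⟩

end

/-- Every smooth datum has a GHD. -/
theorem exists_GHD {φ₀ φ₁ : ℝ → ℝ} (hd : IsData φ₀ φ₁) :
    ∃ (Ω : Set (ℝ × ℝ)) (Φ : ℝ × ℝ → ℝ), IsGHD φ₀ φ₁ Ω Φ := by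
  set ψ := psi₀ φ₀ φ₁ with hψdef
  have hψ : ContDiff ℝ ∞ ψ := differentiable_psi₀ hd
  have hn : ∀ y, ψ y ≠ -4 := hd.nondeg
  have hφ := hd.smooth₀
  have hG0 : ∀ x : ℝ, GG ψ (x, x) = (0, x) := by
    intro x
    unfold GG tt
    simp
  have hmem : ∀ x : ℝ, ((0:ℝ), x) ∈ GG ψ '' RR ψ := fun x => ⟨(x, x), diag_mem hψ hn x, hG0 x⟩
  have hS0 : ∀ x : ℝ, SS φ₀ ψ (0, x) = φ₀ x := by
    intro x
    rw [← hG0 x]
    unfold SS
    rw [gi_GG hψ hn (diag_mem hψ hn x)]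
    unfold PP tt
    simp
  refine ⟨GG ψ '' RR ψ, SS φ₀ ψ, ?_, hmem, ?_, ?_, hS0, ?_,
    fun p hp => Psi_SS_ne hφ hψ hn hp, cauchy_SS hφ hψ hn⟩
  · rw [isOpen_iff_mem_nhds]
    rintro p ⟨q, hq, rfl⟩
    exact (local_inv hψ hn hq).1
  · rintro p ⟨q, hq, rfl⟩
    exact (contDiffAt_SS hφ hψ hn hq).contDiffWithinAt
  · rintro p ⟨q, hq, rfl⟩
    exact (waveEq_iff (contDiffAt_SS hφ hψ hn hq)).2 (burgers_SS hφ hψ hn hq)
  · intro x
    have h1 : Psi (SS φ₀ ψ) (0, x) = ψ x := by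
      rw [← hG0 x]
      exact Psi_SS hφ hψ hn (diag_mem hψ hn x)
    have h2 : dx (SS φ₀ ψ) (0, x) = deriv φ₀ x := by
      have h3 : ContDiffAt ℝ ∞ (SS φ₀ ψ) (0, x) := by
        rw [← hG0 x]
        exact contDiffAt_SS hφ hψ hn (diag_mem hψ hn x)
      have h4 : HasDerivAt (fun r : ℝ => ((0 : ℝ), r)) (0, 1) x :=
        (hasDerivAt_const x (0 : ℝ)).prodMk (hasDerivAt_id x)
      have h5 := (diffAt h3).hasFDerivAt.comp_hasDerivAt x h4
      have h6 : (SS φ₀ ψ ∘ fun r : ℝ => ((0 : ℝ), r)) = φ₀ := funext fun r => hS0 r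
      rw [h6] at h5
      exact h5.deriv.symm
    have h7 : dt (SS φ₀ ψ) (0, x) = ψ x + 2 * deriv φ₀ x := by
      unfold Psi at h1
      rw [h2] at h1
      linarith
    rw [h7, hψdef]
    unfold psi₀
    ring

/-- **Main theorem.** Every smooth datum has exactly one MGHD. -/
theorem main_thm {φ₀ φ₁ : ℝ → ℝ} (hd : IsData φ₀ φ₁) :
    (∃ (Ω : Set (ℝ × ℝ)) (Φ : ℝ × ℝ → ℝ), IsMGHD φ₀ φ₁ Ω Φ ∧
      ∀ (Ω' : Set (ℝ × ℝ)) (Φ' : ℝ × ℝ → ℝ), IsGHD φ₀ φ₁ Ω' Φ' → Ω' ⊆ Ω ∧ EqOn Φ' Φ Ω') ∧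
    ∀ (Ω₁ Ω₂ : Set (ℝ × ℝ)) (Φ₁ Φ₂ : ℝ × ℝ → ℝ), IsMGHD φ₀ φ₁ Ω₁ Φ₁ → IsMGHD φ₀ φ₁ Ω₂ Φ₂ →
      Ω₁ = Ω₂ ∧ EqOn Φ₁ Φ₂ Ω₁ := by
  obtain ⟨Ω, Φ, h⟩ := exists_GHD hd
  refine ⟨⟨bigΩ φ₀ φ₁, bigΦ φ₀ φ₁, isMGHD_big hd h, fun Ω' Φ' h' => ⟨subset_bigΩ h',
    fun p hp => (bigΦ_eq hd h' hp).symm⟩⟩, fun Ω₁ Ω₂ Φ₁ Φ₂ h₁ h₂ => mghd_unique hd h₁ h₂⟩

end Pool.Agent.Q194.MGHD
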