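import Pool.Agent.Q194.MGHD.Defs

set_option autoImplicit false

namespace Pool.Agent.Q194.MGHD

open Filter Topology Set
open scoped ContDiff Matrix

/-- The metric as a product of two linear forms. -/
lemma gform_eq {ψ : ℝ} (hψ : ψ ≠ -4) (v : ℝ × ℝ) :
    gform ψ v = 4 / (ψ + 4) ^ 2 * ((v.2 + 2 * v.1) * (v.2 - (2 + ψ) * v.1)) := by
  have h4 : ψ + 4 ≠ 0 := fun h => hψ (by linarith)
  have hdet : (ginv ψ).det = -(ψ + 4) ^ 2 / 4 := by
    unfold ginv
    rw [Matrix.det_fin_two_of]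
    ring
  unfold gform
  rw [Matrix.inv_def, hdet]
  unfold ginv
  rw [Matrix.adjugate_fin_two_of]
  simp [Matrix.mulVec, dotProduct, Fin.sum_univ_two, Ring.inverse_eq_inv']
  field_simp
  ring

lemma causal_iff {ψ : ℝ} (hψ : ψ ≠ -4) (v : ℝ × ℝ) :
    gform ψ v ≤ 0 ↔ (v.2 + 2 * v.1) * (v.2 - (2 + ψ) * v.1) ≤ 0 := by
  have h4 : ψ + 4 ≠ 0 := fun h => hψ (by linarith)
  have hpos : 0 < 4 / (ψ + 4) ^ 2 := by positivity
  rw [gform_eq hψ]
  constructor
  · intro h
    by_contra hc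
    push Not at hc
    have := mul_pos hpos hc
    linarith
  · intro h
    exact mul_nonpos_of_nonneg_of_nonpos hpos.le h

/-- A causal vector has nonzero time component. -/
lemma fst_ne_zero {ψ : ℝ} (hψ : ψ ≠ -4) {v : ℝ × ℝ} (hv : v ≠ 0) (h : gform ψ v ≤ 0) :
    v.1 ≠ 0 := by
  intro h1
  rw [causal_iff hψ, h1] at h
  simp only [mul_zero, add_zero, sub_zero] at h
  have h2 : v.2 = 0 := by
    have := mul_self_nonneg v.2
    exact mul_self_eq_zero.1 (le_antisymm h this)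
  exact hv (Prod.ext h1 h2)

/-- The part of the interval `I` around `s₀` on which the curve stays in `U`. -/
def starSet (U : Set (ℝ × ℝ)) (I : Set ℝ) (γ : ℝ → ℝ × ℝ) (s₀ : ℝ) : Set ℝ :=
  {s | s ∈ I ∧ ∀ r ∈ uIcc s₀ s, γ r ∈ U}

section
variable {U : Set (ℝ × ℝ)} {I : Set ℝ} {γ : ℝ → ℝ × ℝ} {s₀ : ℝ}

lemma starSet_subset : starSet U I γ s₀ ⊆ I := fun _ h => h.1

lemma starSet_mem {s : ℝ} (h : s ∈ starSet U I γ s₀) : γ s ∈ U := h.2 s right_mem_uIcc

lemma self_mem_starSet (h0 : s₀ ∈ I) (hU : γ s₀ ∈ U) : s₀ ∈ starSet U I γ s₀ := by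
  refine ⟨h0, fun r hr => ?_⟩
  rw [uIcc_self, mem_singleton_iff] at hr
  rw [hr]
  exact hU

lemma starSet_isOpen (hI : IsOpen I) (hγ : ∀ s ∈ I, ContinuousAt γ s) (hU : IsOpen U) :
    IsOpen (starSet U I γ s₀) := by
  rw [isOpen_iff_mem_nhds]
  intro s hs
  have h0 : ∀ᶠ r in 𝓝 s, r ∈ I := hI.mem_nhds hs.1
  have h1 : ∀ᶠ r in 𝓝 s, r ∈ I ∧ γ r ∈ U :=
    h0.and ((hγ s hs.1).eventually (hU.mem_nhds (starSet_mem hs)))
  rw [Metric.eventually_nhds_iff_ball] at h1
  obtain ⟨ε, hε, h1⟩ := h1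
  rw [Metric.mem_nhds_iff]
  refine ⟨ε, hε, fun s' hs' => ⟨(h1 s' hs').1, fun r hr => ?_⟩⟩
  have h2 : r ∈ uIcc s₀ s ∪ uIcc s s' := uIcc_subset_uIcc_union_uIcc hr
  rcases h2 with h2 | h2
  · exact hs.2 r h2
  · refine (h1 r ?_).2
    have hb : Convex ℝ (Metric.ball s ε) := convex_ball s ε
    exact hb.ordConnected.uIcc_subset (Metric.mem_ball_self hε) hs' h2

lemma starSet_ordConnected (hI : I.OrdConnected) : (starSet U I γ s₀).OrdConnected := by
  refine ⟨fun s₁ h₁ s₂ h₂ r hr => ⟨hI.out h₁.1 h₂.1 hr, fun q hq => ?_⟩⟩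
  rcases le_total s₀ r with h | h
  · rw [uIcc_of_le h] at hq
    apply h₂.2 q
    rw [uIcc_of_le (h.trans hr.2)]
    exact ⟨hq.1, hq.2.trans hr.2⟩
  · rw [uIcc_of_ge h] at hq
    apply h₁.2 q
    rw [uIcc_of_ge (hr.1.trans h)]
    exact ⟨hr.1.trans hq.1, hq.2⟩

lemma starSet_right (hI : IsOpen I) (hc : I.OrdConnected) (hγ : ∀ s ∈ I, ContinuousAt γ s)
    (hU : IsOpen U) (h0 : s₀ ∈ I) (hU0 : γ s₀ ∈ U)
    (hext : ∀ p ∈ U, ¬ Tendsto (fun s : I => γ s) atTop (𝓝 p)) :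
    ∀ p ∈ U, ¬ Tendsto (fun s : starSet U I γ s₀ => γ s) atTop (𝓝 p) := by
  intro p hp hT
  set J := starSet U I γ s₀ with hJ
  have h0J : s₀ ∈ J := self_mem_starSet h0 hU0
  have hJo : IsOpen J := starSet_isOpen hI hγ hU
  have : Nonempty J := ⟨⟨s₀, h0J⟩⟩
  have : Nonempty I := ⟨⟨s₀, h0⟩⟩
  by_cases hcof : ∀ s ∈ I, ∃ j ∈ J, s ≤ j
  · apply hext p hp
    rw [tendsto_atTop'] at hT ⊢
    intro N hN
    obtain ⟨a, ha⟩ := hT N hN
    refine ⟨⟨max a.1 s₀, ?_⟩, fun s hs => ?_⟩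
    · rcases max_choice a.1 s₀ with h | h
      · rw [h]; exact starSet_subset a.2
      · rw [h]; exact h0
    · have hs1 : a.1 ≤ s.1 := (le_max_left _ _).trans hs
      have hs2 : s₀ ≤ s.1 := (le_max_right _ _).trans hs
      obtain ⟨j, hj, hsj⟩ := hcof s.1 s.2
      have hsJ : s.1 ∈ J := (starSet_ordConnected hc).out h0J hj ⟨hs2, hsj⟩
      exact ha ⟨s.1, hsJ⟩ hs1
  · push Not at hcof
    obtain ⟨c, hcI, hcJ⟩ := hcof
    have hbdd : BddAbove J := ⟨c, fun j hj => (hcJ j hj).le⟩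
    set b := sSup J with hb
    have hlub : IsLUB J b := isLUB_csSup ⟨s₀, h0J⟩ hbdd
    have hs0b : s₀ ≤ b := hlub.1 h0J
    have hbc : b ≤ c := hlub.2 fun j hj => (hcJ j hj).le
    have hbI : b ∈ I := hc.out h0 hcI ⟨hs0b, hbc⟩
    have h1 : Tendsto (fun s : J => (s : ℝ)) atTop (𝓝 b) := by
      have hmono : Monotone (fun s : J => (s : ℝ)) := fun a b h => h
      apply tendsto_atTop_isLUB hmono
      rw [Subtype.range_coe]
      exact hlub
    have h2 : Tendsto (fun s : J => γ s) atTop (𝓝 (γ b)) := (hγ b hbI).tendsto.comp h1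
    have h3 : p = γ b := tendsto_nhds_unique hT h2
    have hbJ : b ∈ J := by
      refine ⟨hbI, fun r hr => ?_⟩
      rw [uIcc_of_le hs0b] at hr
      rcases eq_or_lt_of_le hr.2 with h | h
      · rw [h, ← h3]; exact hp
      · obtain ⟨j, hj, hrj⟩ := (lt_isLUB_iff hlub).1 h
        apply hj.2 r
        rw [uIcc_of_le (hr.1.trans hrj.le)]
        exact ⟨hr.1, hrj.le⟩
    obtain ⟨ε, hε, hball⟩ := Metric.isOpen_iff.1 hJo b hbJ
    have h4 : b + ε / 2 ∈ J := hball (by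
      rw [Metric.mem_ball, Real.dist_eq]
      rw [add_sub_cancel_left, abs_of_pos (by linarith)]
      linarith)
    have := hlub.1 h4
    linarith

lemma starSet_left (hI : IsOpen I) (hc : I.OrdConnected) (hγ : ∀ s ∈ I, ContinuousAt γ s)
    (hU : IsOpen U) (h0 : s₀ ∈ I) (hU0 : γ s₀ ∈ U)
    (hext : ∀ p ∈ U, ¬ Tendsto (fun s : I => γ s) atBot (𝓝 p)) :
    ∀ p ∈ U, ¬ Tendsto (fun s : starSet U I γ s₀ => γ s) atBot (𝓝 p) := by
  intro p hp hT
  set J := starSet U I γ s₀ with hJ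
  have h0J : s₀ ∈ J := self_mem_starSet h0 hU0
  have hJo : IsOpen J := starSet_isOpen hI hγ hU
  have : Nonempty J := ⟨⟨s₀, h0J⟩⟩
  have : Nonempty I := ⟨⟨s₀, h0⟩⟩
  by_cases hcof : ∀ s ∈ I, ∃ j ∈ J, j ≤ s
  · apply hext p hp
    rw [tendsto_atBot'] at hT ⊢
    intro N hN
    obtain ⟨a, ha⟩ := hT N hN
    refine ⟨⟨min a.1 s₀, ?_⟩, fun s hs => ?_⟩
    · rcases min_choice a.1 s₀ with h | h
      · rw [h]; exact starSet_subset a.2
      · rw [h]; exact h0
    · have hs' : s.1 ≤ min a.1 s₀ := hs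
      have hs1 : s.1 ≤ a.1 := hs'.trans (min_le_left _ _)
      have hs2 : s.1 ≤ s₀ := hs'.trans (min_le_right _ _)
      obtain ⟨j, hj, hsj⟩ := hcof s.1 s.2
      have hsJ : s.1 ∈ J := (starSet_ordConnected hc).out hj h0J ⟨hsj, hs2⟩
      exact ha ⟨s.1, hsJ⟩ hs1
  · push Not at hcof
    obtain ⟨c, hcI, hcJ⟩ := hcof
    have hbdd : BddBelow J := ⟨c, fun j hj => (hcJ j hj).le⟩
    set b := sInf J with hb
    have hglb : IsGLB J b := isGLB_csInf ⟨s₀, h0J⟩ hbdd
    have hs0b : b ≤ s₀ := hglb.1 h0J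
    have hbc : c ≤ b := hglb.2 fun j hj => (hcJ j hj).le
    have hbI : b ∈ I := hc.out hcI h0 ⟨hbc, hs0b⟩
    have h1 : Tendsto (fun s : J => (s : ℝ)) atBot (𝓝 b) := by
      have hmono : Monotone (fun s : J => (s : ℝ)) := fun a b h => h
      apply tendsto_atBot_isGLB hmono
      rw [Subtype.range_coe]
      exact hglb
    have h2 : Tendsto (fun s : J => γ s) atBot (𝓝 (γ b)) := (hγ b hbI).tendsto.comp h1
    have h3 : p = γ b := tendsto_nhds_unique hT h2
    have hbJ : b ∈ J := by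
      refine ⟨hbI, fun r hr => ?_⟩
      rw [uIcc_of_ge hs0b] at hr
      rcases eq_or_lt_of_le hr.1 with h | h
      · rw [← h, ← h3]; exact hp
      · obtain ⟨j, hj, hrj⟩ := (isGLB_lt_iff hglb).1 h
        apply hj.2 r
        rw [uIcc_of_ge (hrj.le.trans hr.2)]
        exact ⟨hrj.le, hr.2⟩
    obtain ⟨ε, hε, hball⟩ := Metric.isOpen_iff.1 hJo b hbJ
    have h4 : b - ε / 2 ∈ J := hball (by
      rw [Metric.mem_ball, Real.dist_eq]
      rw [sub_sub_cancel_left, abs_neg, abs_of_pos (by linarith)]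
      linarith)
    have := hglb.1 h4
    linarith

/-- Restriction of an inextendible curve to the part in a smaller open set is inextendible there. -/
lemma inextendible_starSet {Ω : Set (ℝ × ℝ)} (hI : IsOpen I) (hc : I.OrdConnected)
    (hγ : ∀ s ∈ I, ContinuousAt γ s) (hU : IsOpen U) (hUΩ : U ⊆ Ω) (h0 : s₀ ∈ I)
    (hU0 : γ s₀ ∈ U) (hext : IsInextendible Ω I γ) :
    IsInextendible U (starSet U I γ s₀) γ :=
  ⟨starSet_right hI hc hγ hU h0 hU0 fun p hp => hext.1 p (hUΩ hp),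
   starSet_left hI hc hγ hU h0 hU0 fun p hp => hext.2 p (hUΩ hp)⟩

end

/-- The straight line through `p` with velocity `w`, parametrized by time. -/
def line (p : ℝ × ℝ) (w : ℝ) (s : ℝ) : ℝ × ℝ := (p.1 + s, p.2 + s * w)

lemma hasDerivAt_line (p : ℝ × ℝ) (w s : ℝ) : HasDerivAt (line p w) (1, w) s := by
  have h1 : HasDerivAt (fun s : ℝ => p.1 + s) 1 s := (hasDerivAt_id s).const_add _
  have h2 : HasDerivAt (fun s : ℝ => p.2 + s * w) w s := by
    simpa using ((hasDerivAt_id s).mul_const w).const_add p.2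
  exact h1.prodMk h2

lemma line_zero (p : ℝ × ℝ) (w : ℝ) : line p w 0 = p := by
  simp [line]

lemma inextendible_line (p : ℝ × ℝ) (w : ℝ) : IsInextendible univ univ (line p w) := by
  constructor
  · intro q _ hT
    have h1 : Tendsto (fun s : (univ : Set ℝ) => (line p w s).1) atTop (𝓝 q.1) :=
      (continuous_fst.tendsto q).comp hT
    have h2 : Tendsto (fun s : (univ : Set ℝ) => (line p w s).1) atTop atTop := by
      rw [tendsto_atTop]
      intro b
      rw [eventually_atTop]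
      refine ⟨⟨b - p.1, mem_univ _⟩, fun s hs => ?_⟩
      have : b - p.1 ≤ s.1 := hs
      simp only [line]
      linarith
    have : Nonempty (univ : Set ℝ) := ⟨⟨0, mem_univ _⟩⟩
    exact not_tendsto_nhds_of_tendsto_atTop h2 _ h1
  · intro q _ hT
    have h1 : Tendsto (fun s : (univ : Set ℝ) => (line p w s).1) atBot (𝓝 q.1) :=
      (continuous_fst.tendsto q).comp hT
    have h2 : Tendsto (fun s : (univ : Set ℝ) => (line p w s).1) atBot atBot := by
      rw [tendsto_atBot]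
      intro b
      rw [eventually_atBot]
      refine ⟨⟨b - p.1, mem_univ _⟩, fun s hs => ?_⟩
      have : s.1 ≤ b - p.1 := hs
      simp only [line]
      linarith
    have : Nonempty (univ : Set ℝ) := ⟨⟨0, mem_univ _⟩⟩
    exact not_tendsto_nhds_of_tendsto_atBot h2 _ h1

/-- If a straight line through a point `p` of a GHD-like region stays causal as long as it is in the
region, then the segment to `t = 0` is in the region. -/
lemma segment_mem {Ω : Set (ℝ × ℝ)} {Ψ : ℝ × ℝ → ℝ} (hΩ : IsOpen Ω) (hC : IsCauchyLine Ω Ψ)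
    {p : ℝ × ℝ} (hp : p ∈ Ω) {w : ℝ}
    (hcausal : ∀ s ∈ starSet Ω univ (line p w) 0, gform (Ψ (line p w s)) (1, w) ≤ 0) :
    -p.1 ∈ starSet Ω univ (line p w) 0 := by
  set J := starSet Ω univ (line p w) 0 with hJ
  have hcont : ∀ s ∈ (univ : Set ℝ), ContinuousAt (line p w) s := fun s _ =>
    (hasDerivAt_line p w s).continuousAt
  have hp0 : line p w 0 ∈ Ω := by rw [line_zero]; exact hp
  have hd : deriv (line p w) = fun _ => (1, w) := funext fun s => (hasDerivAt_line p w s).deriv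
  have h1 : IsCausalCurve Ω Ψ J (line p w) := by
    refine ⟨starSet_isOpen isOpen_univ hcont hΩ, starSet_ordConnected ordConnected_univ,
      ⟨0, self_mem_starSet (mem_univ _) hp0⟩, fun s hs => starSet_mem hs,
      fun s _ => (hasDerivAt_line p w s).differentiableAt, ?_, ?_, ?_⟩
    · rw [hd]; exact continuousOn_const
    · intro s _
      rw [hd]
      intro h
      have : (1 : ℝ) = 0 := congrArg Prod.fst h
      norm_num at this
    · intro s hs
      rw [hd]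
      exact hcausal s hs
  have h2 : IsInextendible Ω J (line p w) :=
    inextendible_starSet isOpen_univ ordConnected_univ hcont hΩ (subset_univ _) (mem_univ _) hp0
      (inextendible_line p w)
  obtain ⟨s, ⟨hsJ, hs⟩, -⟩ := hC J (line p w) h1 h2
  have : s = -p.1 := by
    simp only [line] at hs
    linarith
  rw [← this]
  exact hsJ

end Pool.Agent.Q194.MGHD
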