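import Mathlib

/-!
# Globally hyperbolic developments for a model wave equation: definitions

Points of `ℝ^{1+1}` are pairs `p = (t, x) : ℝ × ℝ`.
-/

set_option autoImplicit false

namespace Pool.Agent.Q194.MGHD

open Filter Topology Set
open scoped ContDiff Matrix

/-- `∂_t f`. -/
noncomputable def dt (f : ℝ × ℝ → ℝ) (p : ℝ × ℝ) : ℝ := fderiv ℝ f p (1, 0)

/-- `∂_x f`. -/
noncomputable def dx (f : ℝ × ℝ → ℝ) (p : ℝ × ℝ) : ℝ := fderiv ℝ f p (0, 1)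

/-- `Ψ = ∂_t Φ - 2 ∂_x Φ`. -/
noncomputable def Psi (Φ : ℝ × ℝ → ℝ) (p : ℝ × ℝ) : ℝ := dt Φ p - 2 * dx Φ p

/-- The quasilinear wave equation
`- ∂_t² Φ - Ψ ∂_t ∂_x Φ + 2 (2 + Ψ) ∂_x² Φ = 0` at the point `p`. -/
def WaveEq (Φ : ℝ × ℝ → ℝ) (p : ℝ × ℝ) : Prop :=
  -dt (dt Φ) p - Psi Φ p * dt (dx Φ) p + 2 * (2 + Psi Φ p) * dx (dx Φ) p = 0

/-- The inverse metric `g⁻¹` for the value `ψ` of `Ψ`. -/
noncomputable def ginv (ψ : ℝ) : Matrix (Fin 2) (Fin 2) ℝ :=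
  !![-1, -ψ / 2; -ψ / 2, 2 * (2 + ψ)]

/-- The acoustical metric `g(v, v)` of the vector `v = (v_t, v_x)`, for the value `ψ` of `Ψ`. -/
noncomputable def gform (ψ : ℝ) (v : ℝ × ℝ) : ℝ :=
  ![v.1, v.2] ⬝ᵥ ((ginv ψ)⁻¹ *ᵥ ![v.1, v.2])

/-- A continuously differentiable curve `γ` in `Ω`, defined on the open interval `I ≠ ∅` (bounded or
not), with causal tangent vectors: `γ' ≠ 0` and `g(γ', γ') ≤ 0`. -/
structure IsCausalCurve (Ω : Set (ℝ × ℝ)) (Ψ : ℝ × ℝ → ℝ) (I : Set ℝ) (γ : ℝ → ℝ × ℝ) : Prop where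
  isOpen : IsOpen I
  ordConnected : I.OrdConnected
  nonempty : I.Nonempty
  mem : ∀ s ∈ I, γ s ∈ Ω
  differentiableAt : ∀ s ∈ I, DifferentiableAt ℝ γ s
  continuousOn_deriv : ContinuousOn (deriv γ) I
  ne_zero : ∀ s ∈ I, deriv γ s ≠ 0
  causal : ∀ s ∈ I, gform (Ψ (γ s)) (deriv γ s) ≤ 0

/-- A curve on the interval `I` is inextendible in `Ω` if it has no endpoint in `Ω`: it does not
converge to a point of `Ω` at the right end of `I`, nor at the left end. -/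
def IsInextendible (Ω : Set (ℝ × ℝ)) (I : Set ℝ) (γ : ℝ → ℝ × ℝ) : Prop :=
  (∀ p ∈ Ω, ¬ Tendsto (fun s : I => γ s) atTop (𝓝 p)) ∧
  (∀ p ∈ Ω, ¬ Tendsto (fun s : I => γ s) atBot (𝓝 p))

/-- `Ω ∩ {t = 0}` is a Cauchy hypersurface of `(Ω, g(Ψ))`: every inextendible causal curve meets it
exactly once. -/
def IsCauchyLine (Ω : Set (ℝ × ℝ)) (Ψ : ℝ × ℝ → ℝ) : Prop :=
  ∀ (I : Set ℝ) (γ : ℝ → ℝ × ℝ), IsCausalCurve Ω Ψ I γ → IsInextendible Ω I γ →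
    ∃! s, s ∈ I ∧ (γ s).1 = 0

/-- Initial data: smooth functions with `Ψ ≠ -4` at `t = 0`. -/
structure IsData (φ₀ φ₁ : ℝ → ℝ) : Prop where
  smooth₀ : ContDiff ℝ ∞ φ₀
  smooth₁ : ContDiff ℝ ∞ φ₁
  nondeg : ∀ x, φ₁ x - 2 * deriv φ₀ x ≠ -4

/-- `(Ω, Φ)` (only the values of `Φ` on `Ω` matter) is a globally hyperbolic development of the
data `φ₀, φ₁`. -/
structure IsGHD (φ₀ φ₁ : ℝ → ℝ) (Ω : Set (ℝ × ℝ)) (Φ : ℝ × ℝ → ℝ) : Prop where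
  isOpen : IsOpen Ω
  zero_mem : ∀ x, ((0 : ℝ), x) ∈ Ω
  smooth : ContDiffOn ℝ ∞ Φ Ω
  eqn : ∀ p ∈ Ω, WaveEq Φ p
  data₀ : ∀ x, Φ (0, x) = φ₀ x
  data₁ : ∀ x, dt Φ (0, x) = φ₁ x
  nondeg : ∀ p ∈ Ω, Psi Φ p ≠ -4
  cauchy : IsCauchyLine Ω (Psi Φ)

/-- A maximal globally hyperbolic development: a GHD without proper extension to a GHD. -/
structure IsMGHD (φ₀ φ₁ : ℝ → ℝ) (Ω : Set (ℝ × ℝ)) (Φ : ℝ × ℝ → ℝ) : Prop where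
  isGHD : IsGHD φ₀ φ₁ Ω Φ
  maximal : ∀ (Ω' : Set (ℝ × ℝ)) (Φ' : ℝ × ℝ → ℝ), IsGHD φ₀ φ₁ Ω' Φ' → Ω ⊆ Ω' →
    EqOn Φ' Φ Ω → Ω' = Ω

end Pool.Agent.Q194.MGHD
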