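import Pool.Agent.Q194.MGHD.Union

set_option autoImplicit false

namespace Pool.Agent.Q194.MGHD

open Filter Topology Set
open scoped ContDiff Matrix

/-- the time of the point with characteristic coordinates `(y, z)` -/
noncomputable def tt (ψ : ℝ → ℝ) (q : ℝ × ℝ) : ℝ := (q.2 - q.1) / (4 + ψ q.1)

/-- Jacobian factor -/
noncomputable def nn (ψ : ℝ → ℝ) (q : ℝ × ℝ) : ℝ := 1 + tt ψ q * deriv ψ q.1

/-- the point with characteristic coordinates `(y, z)` -/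
noncomputable def GG (ψ : ℝ → ℝ) (q : ℝ × ℝ) : ℝ × ℝ := (tt ψ q, q.2 - 2 * tt ψ q)

/-- the union of the squares around the diagonal on which the Jacobian factor is positive -/
def RR (ψ : ℝ → ℝ) : Set (ℝ × ℝ) :=
  {q | ∃ a b : ℝ, q.1 ∈ Ioo a b ∧ q.2 ∈ Ioo a b ∧
    ∀ r : ℝ × ℝ, r.1 ∈ Ioo a b → r.2 ∈ Ioo a b → 0 < nn ψ r}

section
variable {ψ : ℝ → ℝ}

lemma RR_isOpen : IsOpen (RR ψ) := by
  rw [isOpen_iff_mem_nhds]
  rintro q ⟨a, b, h1, h2, h3⟩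
  have : Ioo a b ×ˢ Ioo a b ∈ 𝓝 q := by
    rw [← Prod.mk.eta (p := q)]
    exact prod_mem_nhds (Ioo_mem_nhds h1.1 h1.2) (Ioo_mem_nhds h2.1 h2.2)
  exact mem_of_superset this fun r hr => ⟨a, b, hr.1, hr.2, h3⟩

lemma nn_pos {q : ℝ × ℝ} (hq : q ∈ RR ψ) : 0 < nn ψ q := by
  obtain ⟨a, b, h1, h2, h3⟩ := hq
  exact h3 q h1 h2

lemma RR_square {q r : ℝ × ℝ} (hq : q ∈ RR ψ) (h1 : r.1 ∈ uIcc q.1 q.2)
    (h2 : r.2 ∈ uIcc q.1 q.2) : r ∈ RR ψ := by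
  obtain ⟨a, b, ha, hb, h⟩ := hq
  exact ⟨a, b, ordConnected_Ioo.uIcc_subset ha hb h1, ordConnected_Ioo.uIcc_subset ha hb h2, h⟩

lemma RR_slice {y₁ y₂ y z : ℝ} (h₁ : (y₁, z) ∈ RR ψ) (h₂ : (y₂, z) ∈ RR ψ)
    (hy : y ∈ uIcc y₁ y₂) : (y, z) ∈ RR ψ := by
  rcases uIcc_subset_uIcc_union_uIcc (b := z) hy with h | h
  · exact RR_square h₁ h right_mem_uIcc
  · rw [uIcc_comm] at h
    exact RR_square h₂ h right_mem_uIcc

variable (hψ : ContDiff ℝ ∞ ψ) (hn : ∀ y, ψ y ≠ -4)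
include hn

lemma c_ne (y : ℝ) : 4 + ψ y ≠ 0 := fun h => hn y (by linarith)

include hψ

lemma contDiff_tt : ContDiff ℝ ∞ (tt ψ) := by
  unfold tt
  exact (contDiff_snd.sub contDiff_fst).div (contDiff_const.add (hψ.comp contDiff_fst))
    fun q => c_ne hn q.1

omit hn in
lemma contDiff_deriv_psi : ContDiff ℝ ∞ (deriv ψ) := (contDiff_infty_iff_deriv.1 hψ).2

lemma continuous_nn : Continuous (nn ψ) := by
  unfold nn
  exact continuous_const.add ((contDiff_tt hψ hn).continuous.mul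
    ((contDiff_deriv_psi hψ).continuous.comp continuous_fst))

lemma contDiff_GG : ContDiff ℝ ∞ (GG ψ) := by
  unfold GG
  exact (contDiff_tt hψ hn).prodMk (contDiff_snd.sub (contDiff_const.mul (contDiff_tt hψ hn)))

lemma diag_mem (x : ℝ) : (x, x) ∈ RR ψ := by
  have h1 : 0 < nn ψ (x, x) := by
    unfold nn tt
    simp
  have h2 : ∀ᶠ q in 𝓝 ((x, x) : ℝ × ℝ), 0 < nn ψ q :=
    (continuous_nn hψ hn).continuousAt.eventually (Ioi_mem_nhds h1)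
  rw [Metric.eventually_nhds_iff_ball] at h2
  obtain ⟨ε, hε, h2⟩ := h2
  refine ⟨x - ε, x + ε, ⟨by linarith, by linarith⟩, ⟨by linarith, by linarith⟩,
    fun r hr1 hr2 => h2 r ?_⟩
  rw [← ball_prod_same, mem_prod, Real.ball_eq_Ioo]
  exact ⟨hr1, hr2⟩

omit hn in
lemma hasDerivAt_psi' (y : ℝ) : HasDerivAt ψ (deriv ψ y) y :=
  (hψ.differentiable (by simp) y).hasDerivAt

lemma hasDerivAt_tt_fst (y z : ℝ) :
    HasDerivAt (fun y => tt ψ (y, z)) (-nn ψ (y, z) / (4 + ψ y)) y := by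
  have h1 := ((hasDerivAt_id y).const_sub z).div ((hasDerivAt_psi' hψ y).const_add 4)
    (c_ne hn y)
  refine h1.congr_deriv ?_
  have := c_ne hn y
  unfold nn tt
  simp only [id]
  field_simp
  ring

omit hψ hn in
lemma hasDerivAt_tt_snd (y z : ℝ) :
    HasDerivAt (fun z => tt ψ (y, z)) (1 / (4 + ψ y)) z :=
  ((hasDerivAt_id z).sub_const y).div_const (4 + ψ y)

lemma dt_tt (q : ℝ × ℝ) : dt (tt ψ) q = -nn ψ q / (4 + ψ q.1) := by
  have h1 := ((contDiff_tt hψ hn).differentiable (by simp) q).hasFDerivAt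
  have h2 : HasDerivAt (fun y : ℝ => (y, q.2)) (1, 0) q.1 :=
    (hasDerivAt_id q.1).prodMk (hasDerivAt_const q.1 q.2)
  have h1' : HasFDerivAt (tt ψ) (fderiv ℝ (tt ψ) q) ((fun y : ℝ => (y, q.2)) q.1) := h1
  have h3 : HasDerivAt (fun y => tt ψ (y, q.2)) (fderiv ℝ (tt ψ) q (1, 0)) q.1 := by
    have h4 := h1'.comp_hasDerivAt q.1 h2
    exact h4
  exact h3.unique (hasDerivAt_tt_fst hψ hn q.1 q.2)

lemma dx_tt (q : ℝ × ℝ) : dx (tt ψ) q = 1 / (4 + ψ q.1) := by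
  have h1 := ((contDiff_tt hψ hn).differentiable (by simp) q).hasFDerivAt
  have h2 : HasDerivAt (fun z : ℝ => (q.1, z)) (0, 1) q.2 :=
    (hasDerivAt_const q.2 q.1).prodMk (hasDerivAt_id q.2)
  have h1' : HasFDerivAt (tt ψ) (fderiv ℝ (tt ψ) q) ((fun z : ℝ => (q.1, z)) q.2) := h1
  have h3 : HasDerivAt (fun z => tt ψ (q.1, z)) (fderiv ℝ (tt ψ) q (0, 1)) q.2 := by
    have h4 := h1'.comp_hasDerivAt q.2 h2
    exact h4
  exact h3.unique (hasDerivAt_tt_snd (ψ := ψ) q.1 q.2)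

lemma GG_injOn : InjOn (GG ψ) (RR ψ) := by
  rintro ⟨y₁, z₁⟩ h₁ ⟨y₂, z₂⟩ h₂ heq
  have e1 : tt ψ (y₁, z₁) = tt ψ (y₂, z₂) := congrArg Prod.fst heq
  have e2 : z₁ - 2 * tt ψ (y₁, z₁) = z₂ - 2 * tt ψ (y₂, z₂) := congrArg Prod.snd heq
  have hz : z₁ = z₂ := by linarith
  subst hz
  have key : ∀ a b : ℝ, (a, z₁) ∈ RR ψ → (b, z₁) ∈ RR ψ → tt ψ (a, z₁) = tt ψ (b, z₁) →
      ¬ a < b := by
    intro a b ha hb hab hlt
    obtain ⟨c, hc, hc0⟩ := exists_hasDerivAt_eq_zero hlt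
      (fun x _ => (hasDerivAt_tt_fst hψ hn x z₁).continuousAt.continuousWithinAt) hab
      (fun x _ => hasDerivAt_tt_fst hψ hn x z₁)
    have hcR : (c, z₁) ∈ RR ψ := RR_slice ha hb (by
      rw [uIcc_of_le hlt.le]; exact Ioo_subset_Icc_self hc)
    have := nn_pos hcR
    rw [div_eq_zero_iff] at hc0
    rcases hc0 with h | h
    · linarith
    · exact c_ne hn c h
  rcases lt_trichotomy y₁ y₂ with h | h | h
  · exact absurd h (key _ _ h₁ h₂ e1)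
  · rw [h]
  · exact absurd h (key _ _ h₂ h₁ e1.symm)

/-- The derivative of `GG` as an invertible map. -/
lemma exists_equiv {q : ℝ × ℝ} (hq : q ∈ RR ψ) :
    ∃ f' : (ℝ × ℝ) ≃L[ℝ] (ℝ × ℝ), HasFDerivAt (GG ψ) (f' : ℝ × ℝ →L[ℝ] ℝ × ℝ) q := by
  set T : ℝ × ℝ →L[ℝ] ℝ := fderiv ℝ (tt ψ) q with hT
  have h1 : HasFDerivAt (tt ψ) T q :=
    ((contDiff_tt hψ hn).differentiable (by simp) q).hasFDerivAt
  set D : ℝ × ℝ →L[ℝ] ℝ × ℝ := T.prod (ContinuousLinearMap.snd ℝ ℝ ℝ - (2:ℝ) • T) with hD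
  have h2 : HasFDerivAt (GG ψ) D q :=
    h1.prodMk ((ContinuousLinearMap.snd ℝ ℝ ℝ).hasFDerivAt.sub (h1.const_mul 2))
  set α := dt (tt ψ) q with hα
  set β := dx (tt ψ) q with hβ
  have hα0 : α ≠ 0 := by
    rw [hα, dt_tt hψ hn]
    exact div_ne_zero (neg_ne_zero.2 (nn_pos hq).ne') (c_ne hn _)
  have hTv : ∀ v : ℝ × ℝ, T v = v.1 * α + v.2 * β := fun v => fderiv_apply_eq _ _ v.1 v.2
  set g : ℝ × ℝ →L[ℝ] ℝ × ℝ :=
    ((1 / α) • (ContinuousLinearMap.fst ℝ ℝ ℝ - β • (ContinuousLinearMap.snd ℝ ℝ ℝ +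
      (2:ℝ) • ContinuousLinearMap.fst ℝ ℝ ℝ))).prod
      (ContinuousLinearMap.snd ℝ ℝ ℝ + (2:ℝ) • ContinuousLinearMap.fst ℝ ℝ ℝ) with hg
  have hDv : ∀ v : ℝ × ℝ, D v = (v.1 * α + v.2 * β, v.2 - 2 * (v.1 * α + v.2 * β)) := by
    intro v
    rw [← hTv]
    rfl
  have hgv : ∀ v : ℝ × ℝ, g v = (1 / α * (v.1 - β * (v.2 + 2 * v.1)), v.2 + 2 * v.1) := by
    intro v
    rfl
  refine ⟨ContinuousLinearEquiv.equivOfInverse D g ?_ ?_, ?_⟩
  · intro v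
    rw [hgv, hDv]
    ext
    · simp only
      field_simp
      ring
    · simp only
      ring
  · intro v
    rw [hDv, hgv]
    ext
    · simp only
      field_simp
      ring
    · simp only
      field_simp
      ring
  · exact h2

/-- the inverse of `GG` on its image -/
noncomputable def gi (ψ : ℝ → ℝ) : ℝ × ℝ → ℝ × ℝ := Function.invFunOn (GG ψ) (RR ψ)

omit hψ hn in
lemma gi_mem {p : ℝ × ℝ} (hp : p ∈ GG ψ '' RR ψ) : gi ψ p ∈ RR ψ ∧ GG ψ (gi ψ p) = p :=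
  ⟨Function.invFunOn_mem hp, Function.invFunOn_eq hp⟩

lemma gi_GG {q : ℝ × ℝ} (hq : q ∈ RR ψ) : gi ψ (GG ψ q) = q :=
  (GG_injOn hψ hn).leftInvOn_invFunOn hq

/-- `GG` is a local diffeomorphism on `RR`. -/
lemma local_inv {q : ℝ × ℝ} (hq : q ∈ RR ψ) :
    GG ψ '' RR ψ ∈ 𝓝 (GG ψ q) ∧ ContDiffAt ℝ ∞ (gi ψ) (GG ψ q) := by
  obtain ⟨f', hf'⟩ := exists_equiv hψ hn hq
  have hf : ContDiffAt ℝ ∞ (GG ψ) q := (contDiff_GG hψ hn).contDiffAt
  have hn0 : (∞ : WithTop ℕ∞) ≠ 0 := by simp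
  set e := hf.toOpenPartialHomeomorph (GG ψ) hf' hn0 with he
  have hqs : q ∈ e.source := hf.mem_toOpenPartialHomeomorph_source hf' hn0
  have hqt : GG ψ q ∈ e.target := hf.image_mem_toOpenPartialHomeomorph_target hf' hn0
  have hsymm : e.symm (GG ψ q) = q := e.left_inv hqs
  have hc : ContinuousAt e.symm (GG ψ q) := e.continuousAt_symm hqt
  have h1 : ∀ᶠ p in 𝓝 (GG ψ q), e.symm p ∈ RR ψ := by
    apply hc.eventually
    rw [hsymm]
    exact RR_isOpen.mem_nhds hq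
  have h2 : ∀ᶠ p in 𝓝 (GG ψ q), p ∈ e.target := e.open_target.mem_nhds hqt
  have h3 : ∀ᶠ p in 𝓝 (GG ψ q), GG ψ (e.symm p) = p := by
    filter_upwards [h2] with p hp
    exact e.right_inv hp
  constructor
  · filter_upwards [h1, h3] with p hp1 hp2
    exact ⟨e.symm p, hp1, hp2⟩
  · have h4 : gi ψ =ᶠ[𝓝 (GG ψ q)] e.symm := by
      filter_upwards [h1, h3] with p hp1 hp2
      conv_lhs => rw [← hp2]
      exact gi_GG hψ hn hp1
    exact (hf.to_localInverse hf' hn0).congr_of_eventuallyEq h4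

end

/-! ### The solution -/

/-- primitives -/
noncomputable def AA (ψ : ℝ → ℝ) (y : ℝ) : ℝ := ∫ s in (0:ℝ)..y, deriv ψ s / (4 + ψ s)

noncomputable def BB (ψ : ℝ → ℝ) (y : ℝ) : ℝ := ∫ s in (0:ℝ)..y, s * deriv ψ s / (4 + ψ s)

/-- the solution in characteristic coordinates -/
noncomputable def PP (φ₀ ψ : ℝ → ℝ) (q : ℝ × ℝ) : ℝ :=
  φ₀ q.2 + ψ q.1 * tt ψ q - q.2 * (AA ψ q.1 - AA ψ q.2) + (BB ψ q.1 - BB ψ q.2)

section
variable {φ₀ ψ : ℝ → ℝ} (hφ : ContDiff ℝ ∞ φ₀) (hψ : ContDiff ℝ ∞ ψ) (hn : ∀ y, ψ y ≠ -4)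
include hψ hn

lemma hasDerivAt_AA (y : ℝ) : HasDerivAt (AA ψ) (deriv ψ y / (4 + ψ y)) y := by
  have hc : Continuous fun s => deriv ψ s / (4 + ψ s) :=
    (contDiff_deriv_psi hψ).continuous.div (continuous_const.add hψ.continuous)
      fun s => c_ne hn s
  exact hc.integral_hasStrictDerivAt 0 y |>.hasDerivAt

lemma hasDerivAt_BB (y : ℝ) : HasDerivAt (BB ψ) (y * deriv ψ y / (4 + ψ y)) y := by
  have hc : Continuous fun s => s * deriv ψ s / (4 + ψ s) :=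
    (continuous_id.mul (contDiff_deriv_psi hψ).continuous).div
      (continuous_const.add hψ.continuous) fun s => c_ne hn s
  exact hc.integral_hasStrictDerivAt 0 y |>.hasDerivAt

lemma contDiff_AA : ContDiff ℝ ∞ (AA ψ) := by
  rw [contDiff_infty_iff_deriv]
  refine ⟨fun y => (hasDerivAt_AA hψ hn y).differentiableAt, ?_⟩
  have : deriv (AA ψ) = fun y => deriv ψ y / (4 + ψ y) :=
    funext fun y => (hasDerivAt_AA hψ hn y).deriv
  rw [this]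
  exact (contDiff_deriv_psi hψ).div (contDiff_const.add hψ) fun s => c_ne hn s

lemma contDiff_BB : ContDiff ℝ ∞ (BB ψ) := by
  rw [contDiff_infty_iff_deriv]
  refine ⟨fun y => (hasDerivAt_BB hψ hn y).differentiableAt, ?_⟩
  have : deriv (BB ψ) = fun y => y * deriv ψ y / (4 + ψ y) :=
    funext fun y => (hasDerivAt_BB hψ hn y).deriv
  rw [this]
  exact (contDiff_id.mul (contDiff_deriv_psi hψ)).div (contDiff_const.add hψ)
    fun s => c_ne hn s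

include hφ in
lemma contDiff_PP : ContDiff ℝ ∞ (PP φ₀ ψ) := by
  unfold PP
  have h1 := contDiff_AA hψ hn
  have h2 := contDiff_BB hψ hn
  have h3 := contDiff_tt hψ hn
  exact (((hφ.comp contDiff_snd).add ((hψ.comp contDiff_fst).mul h3)).sub
    (contDiff_snd.mul ((h1.comp contDiff_fst).sub (h1.comp contDiff_snd)))).add
    ((h2.comp contDiff_fst).sub (h2.comp contDiff_snd))

lemma hasDerivAt_PP (y z : ℝ) :
    HasDerivAt (fun y => PP φ₀ ψ (y, z)) (ψ y * (-nn ψ (y, z) / (4 + ψ y))) y := by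
  have h1 := (hasDerivAt_psi' hψ y).mul (hasDerivAt_tt_fst hψ hn y z)
  have h2 := ((hasDerivAt_AA hψ hn y).sub_const (AA ψ z)).const_mul z
  have h3 := (hasDerivAt_BB hψ hn y).sub_const (BB ψ z)
  have h4 := ((h1.const_add (φ₀ z)).sub h2).add h3
  refine h4.congr_deriv ?_
  have := c_ne hn y
  unfold tt
  field_simp
  ring

/-- the local solution -/
noncomputable def SS (φ₀ ψ : ℝ → ℝ) (p : ℝ × ℝ) : ℝ := PP φ₀ ψ (gi ψ p)

include hφ in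
lemma contDiffAt_SS {q : ℝ × ℝ} (hq : q ∈ RR ψ) : ContDiffAt ℝ ∞ (SS φ₀ ψ) (GG ψ q) :=
  (contDiff_PP hφ hψ hn).contDiffAt.comp _ (local_inv hψ hn hq).2

lemma hasDerivAt_GG_fst (y z : ℝ) :
    HasDerivAt (fun y => GG ψ (y, z)) (-nn ψ (y, z) / (4 + ψ y), -2 * (-nn ψ (y, z) / (4 + ψ y))) y := by
  have h1 := hasDerivAt_tt_fst hψ hn y z
  have h2 : HasDerivAt (fun y => z - 2 * tt ψ (y, z)) (-2 * (-nn ψ (y, z) / (4 + ψ y))) y := by
    refine ((h1.const_mul 2).const_sub z).congr_deriv ?_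
    ring
  exact h1.prodMk h2

lemma hasDerivAt_GG_snd (y z : ℝ) :
    HasDerivAt (fun z => GG ψ (y, z)) (1 / (4 + ψ y), 1 - 2 * (1 / (4 + ψ y))) z := by
  have h1 := hasDerivAt_tt_snd (ψ := ψ) y z
  exact h1.prodMk ((hasDerivAt_id z).sub (h1.const_mul 2))

include hφ in
lemma Psi_SS {q : ℝ × ℝ} (hq : q ∈ RR ψ) : Psi (SS φ₀ ψ) (GG ψ q) = ψ q.1 := by
  obtain ⟨y, z⟩ := q
  have h1 := (diffAt (contDiffAt_SS hφ hψ hn hq)).hasFDerivAt
  have h1' : HasFDerivAt (SS φ₀ ψ) (fderiv ℝ (SS φ₀ ψ) (GG ψ (y, z)))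
      ((fun y => GG ψ (y, z)) y) := h1
  have h2 := h1'.comp_hasDerivAt y (hasDerivAt_GG_fst hψ hn y z)
  rw [fderiv_apply_eq] at h2
  have hcont : ContinuousAt (fun y : ℝ => (y, z)) y :=
    (continuous_id.prodMk continuous_const).continuousAt
  have h3 : (SS φ₀ ψ ∘ fun y => GG ψ (y, z)) =ᶠ[𝓝 y] fun y => PP φ₀ ψ (y, z) := by
    have : ∀ᶠ r in 𝓝 y, (r, z) ∈ RR ψ := hcont.eventually (RR_isOpen.mem_nhds hq)
    filter_upwards [this] with r hr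
    simp only [Function.comp, SS]
    rw [gi_GG hψ hn hr]
  have h4 := h2.unique ((hasDerivAt_PP (φ₀ := φ₀) hψ hn y z).congr_of_eventuallyEq h3)
  have h5 := (nn_pos hq).ne'
  have h6 := c_ne hn y
  unfold Psi
  have h7 : (-nn ψ (y, z) / (4 + ψ y)) ≠ 0 := div_ne_zero (neg_ne_zero.2 h5) h6
  have h8 : (-nn ψ (y, z) / (4 + ψ y)) * (dt (SS φ₀ ψ) (GG ψ (y, z)) -
      2 * dx (SS φ₀ ψ) (GG ψ (y, z))) = (-nn ψ (y, z) / (4 + ψ y)) * ψ y := by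
    linarith
  exact mul_left_cancel₀ h7 h8

include hφ in
lemma burgers_SS {q : ℝ × ℝ} (hq : q ∈ RR ψ) :
    dt (Psi (SS φ₀ ψ)) (GG ψ q) +
      (2 + Psi (SS φ₀ ψ) (GG ψ q)) * dx (Psi (SS φ₀ ψ)) (GG ψ q) = 0 := by
  obtain ⟨y, z⟩ := q
  have h1 := (diffAt (contDiffAt_Psi (contDiffAt_SS hφ hψ hn hq))).hasFDerivAt
  have h1' : HasFDerivAt (Psi (SS φ₀ ψ)) (fderiv ℝ (Psi (SS φ₀ ψ)) (GG ψ (y, z)))
      ((fun z => GG ψ (y, z)) z) := h1
  have h2 := h1'.comp_hasDerivAt z (hasDerivAt_GG_snd hψ hn y z)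
  rw [fderiv_apply_eq] at h2
  have hcont : ContinuousAt (fun z : ℝ => (y, z)) z :=
    (continuous_const.prodMk continuous_id).continuousAt
  have h3 : (Psi (SS φ₀ ψ) ∘ fun z => GG ψ (y, z)) =ᶠ[𝓝 z] fun _ => ψ y := by
    have : ∀ᶠ r in 𝓝 z, (y, r) ∈ RR ψ := hcont.eventually (RR_isOpen.mem_nhds hq)
    filter_upwards [this] with r hr
    exact Psi_SS hφ hψ hn hr
  have h4 := h2.unique ((hasDerivAt_const z (ψ y)).congr_of_eventuallyEq h3)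
  rw [Psi_SS hφ hψ hn hq]
  have h6 := c_ne hn y
  field_simp at h4
  simp only
  linarith

end

end Pool.Agent.Q194.MGHD
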