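import Pool.Agent.Q194.MGHD.Curves

set_option autoImplicit false

namespace Pool.Agent.Q194.MGHD

open Filter Topology Set
open scoped ContDiff Matrix NNReal

section
variable {Ω : Set (ℝ × ℝ)} {Φ : ℝ × ℝ → ℝ} {p : ℝ × ℝ}

lemma contDiffAt_dt (h : ContDiffAt ℝ ∞ Φ p) : ContDiffAt ℝ ∞ (dt Φ) p :=
  (h.fderiv_right (m := ∞) (by simp)).clm_apply contDiffAt_const

lemma contDiffAt_dx (h : ContDiffAt ℝ ∞ Φ p) : ContDiffAt ℝ ∞ (dx Φ) p :=
  (h.fderiv_right (m := ∞) (by simp)).clm_apply contDiffAt_const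

lemma contDiffAt_Psi (h : ContDiffAt ℝ ∞ Φ p) : ContDiffAt ℝ ∞ (Psi Φ) p :=
  (contDiffAt_dt h).sub (contDiffAt_const.mul (contDiffAt_dx h))

lemma diffAt {f : ℝ × ℝ → ℝ} (h : ContDiffAt ℝ ∞ f p) : DifferentiableAt ℝ f p :=
  h.differentiableAt (by simp)

lemma fderiv_apply_eq (f : ℝ × ℝ → ℝ) (q : ℝ × ℝ) (a b : ℝ) :
    fderiv ℝ f q (a, b) = a * dt f q + b * dx f q := by
  have : ((a, b) : ℝ × ℝ) = a • ((1, 0) : ℝ × ℝ) + b • ((0, 1) : ℝ × ℝ) := by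
    simp
  rw [this, map_add, map_smul, map_smul]
  rfl

lemma dx_dt (h : ContDiffAt ℝ ∞ Φ p) : dx (dt Φ) p = dt (dx Φ) p := by
  have h1 : DifferentiableAt ℝ (fderiv ℝ Φ) p :=
    (h.fderiv_right (m := ∞) (by simp)).differentiableAt (by simp)
  have h2 : IsSymmSndFDerivAt ℝ Φ p := h.isSymmSndFDerivAt (by simp; exact ENat.LEInfty.out)
  have e1 : dx (dt Φ) p = fderiv ℝ (fderiv ℝ Φ) p (0, 1) (1, 0) := by
    unfold dx dt
    rw [fderiv_clm_apply h1 (differentiableAt_const _)]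
    simp
  have e2 : dt (dx Φ) p = fderiv ℝ (fderiv ℝ Φ) p (1, 0) (0, 1) := by
    unfold dx dt
    rw [fderiv_clm_apply h1 (differentiableAt_const _)]
    simp
  rw [e1, e2]
  exact h2 _ _

lemma dt_Psi (h : ContDiffAt ℝ ∞ Φ p) : dt (Psi Φ) p = dt (dt Φ) p - 2 * dt (dx Φ) p := by
  have h1 := (diffAt (contDiffAt_dt h)).hasFDerivAt
  have h2 := (diffAt (contDiffAt_dx h)).hasFDerivAt
  have h3 : HasFDerivAt (Psi Φ) (fderiv ℝ (dt Φ) p - (2:ℝ) • fderiv ℝ (dx Φ) p) p :=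
    h1.sub (h2.const_mul 2)
  unfold dt
  rw [h3.fderiv]
  rfl

lemma dx_Psi (h : ContDiffAt ℝ ∞ Φ p) : dx (Psi Φ) p = dx (dt Φ) p - 2 * dx (dx Φ) p := by
  have h1 := (diffAt (contDiffAt_dt h)).hasFDerivAt
  have h2 := (diffAt (contDiffAt_dx h)).hasFDerivAt
  have h3 : HasFDerivAt (Psi Φ) (fderiv ℝ (dt Φ) p - (2:ℝ) • fderiv ℝ (dx Φ) p) p :=
    h1.sub (h2.const_mul 2)
  unfold dx
  rw [h3.fderiv]
  rfl

/-- The wave equation is Burgers' equation for `Ψ`. -/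
lemma waveEq_iff (h : ContDiffAt ℝ ∞ Φ p) :
    WaveEq Φ p ↔ dt (Psi Φ) p + (2 + Psi Φ p) * dx (Psi Φ) p = 0 := by
  unfold WaveEq
  rw [dt_Psi h, dx_Psi h, dx_dt h]
  constructor <;> intro h1 <;> linarith

lemma hasDerivAt_comp_line {f : ℝ × ℝ → ℝ} {w s : ℝ} (h : DifferentiableAt ℝ f (line p w s)) :
    HasDerivAt (fun r => f (line p w r)) (dt f (line p w s) + w * dx f (line p w s)) s := by
  have h1 := h.hasFDerivAt.comp_hasDerivAt s (hasDerivAt_line p w s)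
  rw [fderiv_apply_eq, one_mul] at h1
  exact h1

end

/-- the initial value of `Ψ` -/
noncomputable def psi₀ (φ₀ φ₁ : ℝ → ℝ) (y : ℝ) : ℝ := φ₁ y - 2 * deriv φ₀ y

section
variable {φ₀ φ₁ : ℝ → ℝ} {Ω : Set (ℝ × ℝ)} {Φ : ℝ × ℝ → ℝ}

lemma IsGHD.contDiffAt (h : IsGHD φ₀ φ₁ Ω Φ) {p : ℝ × ℝ} (hp : p ∈ Ω) : ContDiffAt ℝ ∞ Φ p :=
  h.smooth.contDiffAt (h.isOpen.mem_nhds hp)

lemma IsGHD.psi_init (h : IsGHD φ₀ φ₁ Ω Φ) (y : ℝ) : Psi Φ (0, y) = psi₀ φ₀ φ₁ y := by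
  unfold Psi psi₀
  rw [h.data₁]
  congr 2
  have h1 := (diffAt (h.contDiffAt (h.zero_mem y))).hasFDerivAt
  have h2 : HasDerivAt (fun r : ℝ => ((0 : ℝ), r)) (0, 1) y :=
    (hasDerivAt_const y (0 : ℝ)).prodMk (hasDerivAt_id y)
  have h3 := h1.comp_hasDerivAt y h2
  have h4 : (Φ ∘ fun r : ℝ => ((0 : ℝ), r)) = φ₀ := funext fun r => h.data₀ r
  rw [h4] at h3
  exact h3.deriv.symm

/-- the ingoing segment from a point to `t = 0` -/
lemma IsGHD.ingoing (h : IsGHD φ₀ φ₁ Ω Φ) {p : ℝ × ℝ} (hp : p ∈ Ω) :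
    ∀ r ∈ uIcc 0 (-p.1), line p (-2) r ∈ Ω := by
  have h1 := segment_mem h.isOpen h.cauchy hp (w := -2) (fun s hs => by
    rw [causal_iff (h.nondeg _ (starSet_mem hs))]
    norm_num)
  exact h1.2

/-- `Ψ` is constant along the outgoing characteristic. -/
lemma IsGHD.const_line (h : IsGHD φ₀ φ₁ Ω Φ) {p : ℝ × ℝ} (hp : p ∈ Ω) :
    ∀ s ∈ starSet Ω univ (line p (2 + Psi Φ p)) 0, Psi Φ (line p (2 + Psi Φ p) s) = Psi Φ p := by
  intro s hs
  set v := Psi Φ p with hv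
  set γ := line p (2 + v) with hγ
  set J := starSet Ω univ γ 0 with hJ
  have hcont : ∀ s ∈ (univ : Set ℝ), ContinuousAt γ s := fun s _ =>
    (hasDerivAt_line p _ s).continuousAt
  have hγ0 : γ 0 = p := line_zero p _
  have h0J : (0:ℝ) ∈ J := self_mem_starSet (mem_univ _) (by rw [hγ0]; exact hp)
  have hJo : IsOpen J := starSet_isOpen isOpen_univ hcont h.isOpen
  have hJc : J.OrdConnected := starSet_ordConnected ordConnected_univ
  -- a compact interval around `0` and `s` in `J`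
  obtain ⟨a, ha, haJ⟩ : ∃ a, a < min 0 s ∧ a ∈ J := by
    have hm : min 0 s ∈ J := by
      rcases min_choice 0 s with h | h
      · rw [h]; exact h0J
      · rw [h]; exact hs
    obtain ⟨ε, hε, hb⟩ := Metric.isOpen_iff.1 hJo _ hm
    refine ⟨min 0 s - ε / 2, by linarith, hb ?_⟩
    rw [Metric.mem_ball, Real.dist_eq, sub_sub_cancel_left, abs_neg, abs_of_pos (by linarith)]
    linarith
  obtain ⟨b, hbs, hbJ⟩ : ∃ b, max 0 s < b ∧ b ∈ J := by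
    have hm : max 0 s ∈ J := by
      rcases max_choice 0 s with h | h
      · rw [h]; exact h0J
      · rw [h]; exact hs
    obtain ⟨ε, hε, hb⟩ := Metric.isOpen_iff.1 hJo _ hm
    refine ⟨max 0 s + ε / 2, by linarith, hb ?_⟩
    rw [Metric.mem_ball, Real.dist_eq, add_sub_cancel_left, abs_of_pos (by linarith)]
    linarith
  have hab : Icc a b ⊆ J := hJc.out haJ hbJ
  set c : ℝ → ℝ := fun r => dx (Psi Φ) (γ r) with hc
  have hccont : ContinuousOn c (Icc a b) := by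
    intro r hr
    have h1 : ContinuousAt (dx (Psi Φ)) (γ r) :=
      (contDiffAt_dx (contDiffAt_Psi (h.contDiffAt (starSet_mem (hab hr))))).continuousAt
    exact (ContinuousAt.comp h1 (hcont r (mem_univ _))).continuousWithinAt
  obtain ⟨K, hK⟩ := isCompact_Icc.exists_bound_of_continuousOn hccont
  have hder : ∀ r ∈ Ioo a b, HasDerivAt (fun r => Psi Φ (γ r)) ((v - Psi Φ (γ r)) * c r) r := by
    intro r hr
    have hrJ : r ∈ J := hab (Ioo_subset_Icc_self hr)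
    have hq : γ r ∈ Ω := starSet_mem hrJ
    have h1 := hasDerivAt_comp_line (diffAt (contDiffAt_Psi (h.contDiffAt hq)))
    refine h1.congr_deriv ?_
    have h2 := (waveEq_iff (h.contDiffAt hq)).1 (h.eqn _ hq)
    simp only [hc]
    have : dt (Psi Φ) (γ r) = -((2 + Psi Φ (γ r)) * dx (Psi Φ) (γ r)) := by linarith
    change dt (Psi Φ) (γ r) + (2 + v) * dx (Psi Φ) (γ r) = _
    rw [this]
    ring
  have hfin := ODE_solution_unique_of_mem_Ioo (v := fun r y => (v - y) * c r)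
    (s := fun _ => univ) (K := K.toNNReal) (f := fun r => Psi Φ (γ r)) (g := fun _ => v)
    (a := a) (b := b) (t₀ := 0) (fun r hr => by
      apply LipschitzOnWith.of_dist_le_mul
      intro x _ y _
      rw [Real.dist_eq, Real.dist_eq]
      have h1 : (v - x) * c r - (v - y) * c r = -(c r) * (x - y) := by ring
      rw [h1, abs_mul, abs_neg]
      apply mul_le_mul_of_nonneg_right _ (abs_nonneg _)
      have := hK r (Ioo_subset_Icc_self hr)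
      rw [Real.norm_eq_abs] at this
      exact this.trans (Real.le_coe_toNNReal K))
    ⟨ha.trans_le (min_le_left _ _), (le_max_left _ _).trans_lt hbs⟩
    (fun r hr => ⟨hder r hr, mem_univ _⟩)
    (fun r _ => ⟨by simpa using hasDerivAt_const r v, mem_univ _⟩)
    (by rw [hγ0])
  exact hfin ⟨ha.trans_le (min_le_right _ _), (le_max_right _ _).trans_lt hbs⟩

/-- The implicit equation for `Ψ`. -/
lemma IsGHD.implicit (h : IsGHD φ₀ φ₁ Ω Φ) {p : ℝ × ℝ} (hp : p ∈ Ω) :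
    Psi Φ p = psi₀ φ₀ φ₁ (p.2 - p.1 * (2 + Psi Φ p)) := by
  have h1 := segment_mem h.isOpen h.cauchy hp (w := 2 + Psi Φ p) (fun s hs => by
    rw [causal_iff (h.nondeg _ (starSet_mem hs)), h.const_line hp s hs]
    simp)
  have h2 := h.const_line hp _ h1
  have h3 : line p (2 + Psi Φ p) (-p.1) = (0, p.2 - p.1 * (2 + Psi Φ p)) := by
    unfold line
    ext <;> simp <;> ring
  rw [h3, h.psi_init] at h2
  exact h2.symm

lemma differentiable_psi₀ (hd : IsData φ₀ φ₁) : ContDiff ℝ ∞ (psi₀ φ₀ φ₁) := by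
  unfold psi₀
  have h1 : ContDiff ℝ ∞ (deriv φ₀) := (contDiff_infty_iff_deriv.1 hd.smooth₀).2
  exact hd.smooth₁.sub (contDiff_const.mul h1)

/-- Smoothness forces `1 + t ψ₀' ≠ 0`. -/
lemma IsGHD.one_add_ne (hd : IsData φ₀ φ₁) (h : IsGHD φ₀ φ₁ Ω Φ) {p : ℝ × ℝ} (hp : p ∈ Ω) :
    1 + p.1 * deriv (psi₀ φ₀ φ₁) (p.2 - p.1 * (2 + Psi Φ p)) ≠ 0 := by
  intro hz
  set D := deriv (psi₀ φ₀ φ₁) (p.2 - p.1 * (2 + Psi Φ p)) with hD
  have hΨ := (diffAt (contDiffAt_Psi (h.contDiffAt hp))).hasFDerivAt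
  have hx : HasDerivAt (fun r : ℝ => (p.1, r)) (0, 1) p.2 :=
    (hasDerivAt_const p.2 p.1).prodMk (hasDerivAt_id p.2)
  have h1 : HasDerivAt (fun r : ℝ => Psi Φ (p.1, r)) (dx (Psi Φ) p) p.2 := by
    have hΨ' : HasFDerivAt (Psi Φ) (fderiv ℝ (Psi Φ) p) ((fun r : ℝ => (p.1, r)) p.2) := hΨ
    exact hΨ'.comp_hasDerivAt p.2 hx
  have h2 : HasDerivAt (fun r : ℝ => psi₀ φ₀ φ₁ (r - p.1 * (2 + Psi Φ (p.1, r))))
      (D * (1 - p.1 * dx (Psi Φ) p)) p.2 := by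
    have h3 : HasDerivAt (fun r : ℝ => r - p.1 * (2 + Psi Φ (p.1, r)))
        (1 - p.1 * dx (Psi Φ) p) p.2 :=
      (hasDerivAt_id p.2).sub ((h1.const_add 2).const_mul p.1)
    have h4 : HasDerivAt (psi₀ φ₀ φ₁) D (p.2 - p.1 * (2 + Psi Φ (p.1, p.2))) :=
      ((differentiable_psi₀ hd).differentiable (by simp) _).hasDerivAt
    exact h4.comp p.2 h3
  have h5 : (fun r : ℝ => Psi Φ (p.1, r)) =ᶠ[𝓝 p.2]
      fun r : ℝ => psi₀ φ₀ φ₁ (r - p.1 * (2 + Psi Φ (p.1, r))) := by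
    have : ∀ᶠ r in 𝓝 p.2, (p.1, r) ∈ Ω := hx.continuousAt.eventually (h.isOpen.mem_nhds hp)
    filter_upwards [this] with r hr
    exact h.implicit hr
  have h6 := h1.unique (h2.congr_of_eventuallyEq h5)
  have hp1 : p.1 ≠ 0 := by
    intro h0
    rw [h0] at hz
    simp at hz
  have h7 : D = -1 / p.1 := by
    field_simp
    linarith
  rw [h7] at h6
  field_simp at h6
  linarith

end

section
variable {φ₀ φ₁ : ℝ → ℝ} {Ω₁ Ω₂ : Set (ℝ × ℝ)} {Φ₁ Φ₂ : ℝ × ℝ → ℝ}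

/-- Local agreement propagates to a neighbourhood. -/
lemma agree_nhds (hd : IsData φ₀ φ₁) (h₁ : IsGHD φ₀ φ₁ Ω₁ Φ₁) (h₂ : IsGHD φ₀ φ₁ Ω₂ Φ₂)
    {p : ℝ × ℝ} (hp₁ : p ∈ Ω₁) (hp₂ : p ∈ Ω₂) (heq : Psi Φ₁ p = Psi Φ₂ p) :
    ∀ᶠ q in 𝓝 p, Psi Φ₁ q = Psi Φ₂ q := by
  set v := Psi Φ₁ p with hv
  set N : (ℝ × ℝ) × ℝ → ℝ :=
    fun z => 1 + z.1.1 * deriv (psi₀ φ₀ φ₁) (z.1.2 - z.1.1 * (2 + z.2)) with hN
  have hψ := differentiable_psi₀ hd
  have hψ' : Continuous (deriv (psi₀ φ₀ φ₁)) :=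
    ((contDiff_infty_iff_deriv.1 hψ).2).continuous
  have hNc : Continuous N := by
    simp only [hN]
    fun_prop
  have hN0 : N (p, v) ≠ 0 := h₁.one_add_ne hd hp₁
  have h1 : ∀ᶠ z in 𝓝 (p, v), N z ≠ 0 := hNc.continuousAt.eventually_ne hN0
  rw [nhds_prod_eq, Filter.eventually_prod_iff] at h1
  obtain ⟨A, hA, B, hB, hAB⟩ := h1
  rw [Metric.eventually_nhds_iff_ball] at hB
  obtain ⟨ε, hε, hB⟩ := hB
  have hc₁ : ContinuousAt (Psi Φ₁) p := (contDiffAt_Psi (h₁.contDiffAt hp₁)).continuousAt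
  have hc₂ : ContinuousAt (Psi Φ₂) p := (contDiffAt_Psi (h₂.contDiffAt hp₂)).continuousAt
  have e1 : ∀ᶠ q in 𝓝 p, Psi Φ₁ q ∈ Metric.ball v ε :=
    hc₁.eventually (Metric.ball_mem_nhds _ hε)
  have e2 : ∀ᶠ q in 𝓝 p, Psi Φ₂ q ∈ Metric.ball v ε := by
    apply hc₂.eventually
    rw [← heq]
    exact Metric.ball_mem_nhds _ hε
  have e3 : ∀ᶠ q in 𝓝 p, q ∈ Ω₁ := h₁.isOpen.mem_nhds hp₁
  have e4 : ∀ᶠ q in 𝓝 p, q ∈ Ω₂ := h₂.isOpen.mem_nhds hp₂
  filter_upwards [hA, e1, e2, e3, e4] with q hq hq1 hq2 hq3 hq4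
  -- Rolle
  have key : ∀ a b : ℝ, a ∈ Metric.ball v ε → b ∈ Metric.ball v ε →
      a = psi₀ φ₀ φ₁ (q.2 - q.1 * (2 + a)) → b = psi₀ φ₀ φ₁ (q.2 - q.1 * (2 + b)) →
      ¬ a < b := by
    intro a b ha hb hea heb hab
    set G : ℝ → ℝ := fun w => w - psi₀ φ₀ φ₁ (q.2 - q.1 * (2 + w)) with hG
    have hGd : ∀ w, HasDerivAt G (N (q, w)) w := by
      intro w
      have h3 : HasDerivAt (fun w : ℝ => q.2 - q.1 * (2 + w)) (-q.1) w := by
        have := (((hasDerivAt_id w).const_add 2).const_mul q.1).const_sub q.2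
        simpa using this
      have h4 : HasDerivAt (psi₀ φ₀ φ₁) (deriv (psi₀ φ₀ φ₁) (q.2 - q.1 * (2 + w)))
          (q.2 - q.1 * (2 + w)) := (hψ.differentiable (by simp) _).hasDerivAt
      have h5 := (hasDerivAt_id w).sub (h4.comp w h3)
      refine h5.congr_deriv ?_
      simp only [hN]
      ring
    obtain ⟨w, hw, hw0⟩ := exists_hasDerivAt_eq_zero hab
      (fun x _ => (hGd x).continuousAt.continuousWithinAt)
      (by simp only [hG]; rw [← hea, ← heb]; ring) (fun x _ => hGd x)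
    have hwB : w ∈ Metric.ball v ε :=
      (convex_ball v ε).ordConnected.out ha hb (Ioo_subset_Icc_self hw)
    exact hAB hq (hB w hwB) hw0
  rcases lt_trichotomy (Psi Φ₁ q) (Psi Φ₂ q) with h | h | h
  · exact absurd h (key _ _ hq1 hq2 (h₁.implicit hq3) (h₂.implicit hq4))
  · exact h
  · exact absurd h (key _ _ hq2 hq1 (h₂.implicit hq4) (h₁.implicit hq3))

/-- On the overlap of two GHDs the functions `Ψ` agree. -/
lemma Psi_agree (hd : IsData φ₀ φ₁) (h₁ : IsGHD φ₀ φ₁ Ω₁ Φ₁) (h₂ : IsGHD φ₀ φ₁ Ω₂ Φ₂)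
    {p : ℝ × ℝ} (hp₁ : p ∈ Ω₁) (hp₂ : p ∈ Ω₂) : Psi Φ₁ p = Psi Φ₂ p := by
  set σ : ℝ → ℝ × ℝ := fun u => line p (-2) (-p.1 + u * p.1) with hσ
  have hmem : ∀ u ∈ Icc (0:ℝ) 1, -p.1 + u * p.1 ∈ uIcc 0 (-p.1) := by
    intro u hu
    rw [mem_uIcc]
    rcases le_total 0 p.1 with h | h
    · right
      constructor
      · nlinarith [hu.1, hu.2]
      · nlinarith [hu.1, hu.2]
    · left
      constructor
      · nlinarith [hu.1, hu.2]
      · nlinarith [hu.1, hu.2]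
  have hσ₁ : ∀ u ∈ Icc (0:ℝ) 1, σ u ∈ Ω₁ := fun u hu => h₁.ingoing hp₁ _ (hmem u hu)
  have hσ₂ : ∀ u ∈ Icc (0:ℝ) 1, σ u ∈ Ω₂ := fun u hu => h₂.ingoing hp₂ _ (hmem u hu)
  have hσc : Continuous σ := by
    simp only [hσ, line]
    fun_prop
  have hσ1 : σ 1 = p := by
    simp only [hσ, line]
    ext <;> simp
  have hσ0 : σ 0 = (0, p.2 + 2 * p.1) := by
    simp only [hσ, line]
    ext <;> simp
    ring
  set A : Set ℝ := {u | Psi Φ₁ (σ u) = Psi Φ₂ (σ u)} with hA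
  have hcl : IsClosed (A ∩ Icc 0 1) := by
    have hc₁ : ContinuousOn (fun u => Psi Φ₁ (σ u)) (Icc 0 1) := fun u hu =>
      (ContinuousAt.comp (contDiffAt_Psi (h₁.contDiffAt (hσ₁ u hu))).continuousAt
        hσc.continuousAt).continuousWithinAt
    have hc₂ : ContinuousOn (fun u => Psi Φ₂ (σ u)) (Icc 0 1) := fun u hu =>
      (ContinuousAt.comp (contDiffAt_Psi (h₂.contDiffAt (hσ₂ u hu))).continuousAt
        hσc.continuousAt).continuousWithinAt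
    have h1 : A ∩ Icc 0 1 = Icc 0 1 ∩ (fun u => Psi Φ₁ (σ u) - Psi Φ₂ (σ u)) ⁻¹' {0} := by
      ext u
      simp only [hA, mem_inter_iff, mem_ofPred_eq, mem_preimage, mem_singleton_iff, sub_eq_zero]
      tauto
    rw [h1]
    exact (hc₁.sub hc₂).preimage_isClosed_of_isClosed isClosed_Icc isClosed_singleton
  have hsub : Icc (0:ℝ) 1 ⊆ A := by
    apply hcl.Icc_subset_of_forall_mem_nhdsWithin
    · simp only [hA, mem_ofPred_eq]
      rw [hσ0, h₁.psi_init, h₂.psi_init]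
    · intro u hu
      have huI : u ∈ Icc (0:ℝ) 1 := ⟨hu.2.1, hu.2.2.le⟩
      have h1 := agree_nhds hd h₁ h₂ (hσ₁ u huI) (hσ₂ u huI) hu.1
      exact mem_nhdsWithin_of_mem_nhds (hσc.continuousAt.eventually h1)
  have := hsub (right_mem_Icc.2 zero_le_one)
  simp only [hA, mem_ofPred_eq] at this
  rwa [hσ1] at this

/-- On the overlap of two GHDs the solutions agree. -/
lemma Phi_agree (hd : IsData φ₀ φ₁) (h₁ : IsGHD φ₀ φ₁ Ω₁ Φ₁) (h₂ : IsGHD φ₀ φ₁ Ω₂ Φ₂)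
    {p : ℝ × ℝ} (hp₁ : p ∈ Ω₁) (hp₂ : p ∈ Ω₂) : Φ₁ p = Φ₂ p := by
  set k : ℝ → ℝ := fun s => Φ₁ (line p (-2) s) - Φ₂ (line p (-2) s) with hk
  have hder : ∀ s ∈ uIcc 0 (-p.1), HasDerivWithinAt k 0 (uIcc 0 (-p.1)) s := by
    intro s hs
    have m₁ := h₁.ingoing hp₁ s hs
    have m₂ := h₂.ingoing hp₂ s hs
    have d₁ := hasDerivAt_comp_line (diffAt (h₁.contDiffAt m₁))
    have d₂ := hasDerivAt_comp_line (diffAt (h₂.contDiffAt m₂))
    have h3 := Psi_agree hd h₁ h₂ m₁ m₂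
    unfold Psi at h3
    refine ((d₁.sub d₂).congr_deriv ?_).hasDerivWithinAt
    linarith
  have hconv : Convex ℝ (uIcc 0 (-p.1)) := convex_uIcc _ _
  have := hconv.norm_image_sub_le_of_norm_hasDerivWithin_le (f := k) (f' := fun _ => (0:ℝ))
    (C := 0) hder (fun x _ => by simp) (left_mem_uIcc : (0:ℝ) ∈ uIcc 0 (-p.1))
    (right_mem_uIcc : -p.1 ∈ uIcc 0 (-p.1))
  simp only [zero_mul, norm_le_zero_iff, sub_eq_zero] at this
  have e1 : k (-p.1) = 0 := by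
    have : line p (-2) (-p.1) = (0, p.2 + 2 * p.1) := by
      unfold line
      ext <;> simp <;> ring
    simp only [hk]
    rw [this, h₁.data₀, h₂.data₀, sub_self]
  have e2 : k 0 = Φ₁ p - Φ₂ p := by
    simp only [hk]
    rw [line_zero]
  rw [e1, e2] at this
  linarith

end

end Pool.Agent.Q194.MGHD
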