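import Pool.Agent.Q194.MGHD.Local

set_option autoImplicit false

namespace Pool.Agent.Q194.MGHD

open Filter Topology Set
open scoped ContDiff Matrix

section
variable {f g : ℝ × ℝ → ℝ} {p : ℝ × ℝ}

lemma dt_congr (h : f =ᶠ[𝓝 p] g) : dt f =ᶠ[𝓝 p] dt g := by
  filter_upwards [h.fderiv (𝕜 := ℝ)] with q hq
  unfold dt
  rw [hq]

lemma dx_congr (h : f =ᶠ[𝓝 p] g) : dx f =ᶠ[𝓝 p] dx g := by
  filter_upwards [h.fderiv (𝕜 := ℝ)] with q hq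
  unfold dx
  rw [hq]

lemma Psi_congr (h : f =ᶠ[𝓝 p] g) : Psi f =ᶠ[𝓝 p] Psi g := by
  filter_upwards [dt_congr h, dx_congr h] with q h1 h2
  unfold Psi
  rw [h1, h2]

lemma waveEq_congr (h : f =ᶠ[𝓝 p] g) (hf : WaveEq g p) : WaveEq f p := by
  unfold WaveEq at *
  rw [(dt_congr (dt_congr h)).self_of_nhds, (dt_congr (dx_congr h)).self_of_nhds,
    (dx_congr (dx_congr h)).self_of_nhds, (Psi_congr h).self_of_nhds]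
  exact hf

end

/-- A causal curve meets `t = 0` at most once. -/
lemma meets_once {Ω : Set (ℝ × ℝ)} {Ψ : ℝ × ℝ → ℝ} (hΨ : ∀ p ∈ Ω, Ψ p ≠ -4) {I : Set ℝ}
    {γ : ℝ → ℝ × ℝ} (h : IsCausalCurve Ω Ψ I γ) {s₁ s₂ : ℝ} (h₁ : s₁ ∈ I) (h₂ : s₂ ∈ I)
    (e₁ : (γ s₁).1 = 0) (e₂ : (γ s₂).1 = 0) : s₁ = s₂ := by
  have key : ∀ a b : ℝ, a ∈ I → b ∈ I → (γ a).1 = 0 → (γ b).1 = 0 → ¬ a < b := by
    intro a b ha hb ea eb hab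
    have hsub : Icc a b ⊆ I := h.ordConnected.out ha hb
    have hder : ∀ s ∈ I, HasDerivAt (fun s => (γ s).1) (deriv γ s).1 s := fun s hs =>
      (h.differentiableAt s hs).hasDerivAt.fst
    obtain ⟨c, hc, hc0⟩ := exists_hasDerivAt_eq_zero hab
      (fun x hx => (hder x (hsub hx)).continuousAt.continuousWithinAt) (by rw [ea, eb])
      (fun x hx => hder x (hsub (Ioo_subset_Icc_self hx)))
    have hcI := hsub (Ioo_subset_Icc_self hc)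
    exact fst_ne_zero (hΨ _ (h.mem c hcI)) (h.ne_zero c hcI) (h.causal c hcI) hc0
  rcases lt_trichotomy s₁ s₂ with h' | h' | h'
  · exact absurd h' (key _ _ h₁ h₂ e₁ e₂)
  · exact h'
  · exact absurd h' (key _ _ h₂ h₁ e₂ e₁)

section
variable (φ₀ φ₁ : ℝ → ℝ)

/-- The union of the domains of all GHDs. -/
def bigΩ : Set (ℝ × ℝ) := {p | ∃ (Ω : Set (ℝ × ℝ)) (Φ : ℝ × ℝ → ℝ), IsGHD φ₀ φ₁ Ω Φ ∧ p ∈ Ω}

open Classical in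
/-- The common continuation of all GHDs. -/
noncomputable def bigΦ (p : ℝ × ℝ) : ℝ :=
  if h : ∃ (Ω : Set (ℝ × ℝ)) (Φ : ℝ × ℝ → ℝ), IsGHD φ₀ φ₁ Ω Φ ∧ p ∈ Ω then
    h.choose_spec.choose p else 0

variable {φ₀ φ₁}
variable {Ω : Set (ℝ × ℝ)} {Φ : ℝ × ℝ → ℝ}

lemma bigΦ_eq (hd : IsData φ₀ φ₁) (h : IsGHD φ₀ φ₁ Ω Φ) {p : ℝ × ℝ} (hp : p ∈ Ω) :
    bigΦ φ₀ φ₁ p = Φ p := by
  have h1 : ∃ (Ω : Set (ℝ × ℝ)) (Φ : ℝ × ℝ → ℝ), IsGHD φ₀ φ₁ Ω Φ ∧ p ∈ Ω := ⟨Ω, Φ, h, hp⟩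
  unfold bigΦ
  rw [dif_pos h1]
  have h2 := h1.choose_spec.choose_spec
  exact Phi_agree hd h2.1 h h2.2 hp

lemma bigΦ_eventuallyEq (hd : IsData φ₀ φ₁) (h : IsGHD φ₀ φ₁ Ω Φ) {p : ℝ × ℝ} (hp : p ∈ Ω) :
    bigΦ φ₀ φ₁ =ᶠ[𝓝 p] Φ := by
  filter_upwards [h.isOpen.mem_nhds hp] with q hq
  exact bigΦ_eq hd h hq

lemma subset_bigΩ (h : IsGHD φ₀ φ₁ Ω Φ) : Ω ⊆ bigΩ φ₀ φ₁ := fun _ hp => ⟨Ω, Φ, h, hp⟩

/-- The union of all GHDs is a GHD. -/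
lemma isGHD_big (hd : IsData φ₀ φ₁) (h : IsGHD φ₀ φ₁ Ω Φ) :
    IsGHD φ₀ φ₁ (bigΩ φ₀ φ₁) (bigΦ φ₀ φ₁) := by
  have hnd : ∀ p ∈ bigΩ φ₀ φ₁, Psi (bigΦ φ₀ φ₁) p ≠ -4 := by
    rintro p ⟨Ω', Φ', h', hp⟩
    rw [(Psi_congr (bigΦ_eventuallyEq hd h' hp)).self_of_nhds]
    exact h'.nondeg p hp
  refine ⟨?_, fun x => subset_bigΩ h (h.zero_mem x), ?_, ?_, ?_, ?_, hnd, ?_⟩
  · rw [isOpen_iff_mem_nhds]
    rintro p ⟨Ω', Φ', h', hp⟩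
    exact mem_of_superset (h'.isOpen.mem_nhds hp) (subset_bigΩ h')
  · rintro p ⟨Ω', Φ', h', hp⟩
    exact ((h'.contDiffAt hp).congr_of_eventuallyEq
      (bigΦ_eventuallyEq hd h' hp)).contDiffWithinAt
  · rintro p ⟨Ω', Φ', h', hp⟩
    exact waveEq_congr (bigΦ_eventuallyEq hd h' hp) (h'.eqn p hp)
  · intro x
    rw [bigΦ_eq hd h (h.zero_mem x), h.data₀]
  · intro x
    rw [(dt_congr (bigΦ_eventuallyEq hd h (h.zero_mem x))).self_of_nhds, h.data₁]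
  · intro I γ hγ hext
    obtain ⟨s₀, hs₀⟩ := hγ.nonempty
    obtain ⟨Ω', Φ', h', hp⟩ := hγ.mem s₀ hs₀
    have hcont : ∀ s ∈ I, ContinuousAt γ s := fun s hs => (hγ.differentiableAt s hs).continuousAt
    set J := starSet Ω' I γ s₀ with hJ
    have hJI : J ⊆ I := starSet_subset
    have h1 : IsCausalCurve Ω' (Psi Φ') J γ := by
      refine ⟨starSet_isOpen hγ.isOpen hcont h'.isOpen, starSet_ordConnected hγ.ordConnected,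
        ⟨s₀, self_mem_starSet hs₀ hp⟩, fun s hs => starSet_mem hs,
        fun s hs => hγ.differentiableAt s (hJI hs), hγ.continuousOn_deriv.mono hJI,
        fun s hs => hγ.ne_zero s (hJI hs), fun s hs => ?_⟩
      have h2 := hγ.causal s (hJI hs)
      rwa [(Psi_congr (bigΦ_eventuallyEq hd h' (starSet_mem hs))).self_of_nhds] at h2
    have h2 : IsInextendible Ω' J γ :=
      inextendible_starSet hγ.isOpen hγ.ordConnected hcont h'.isOpen (subset_bigΩ h') hs₀ hp hext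
    obtain ⟨s, ⟨hsJ, hs⟩, -⟩ := h'.cauchy J γ h1 h2
    exact ⟨s, ⟨hJI hsJ, hs⟩, fun r hr => meets_once hnd hγ hr.1 (hJI hsJ) hr.2 hs⟩

/-- If there is a GHD, the union of all GHDs is an MGHD. -/
lemma isMGHD_big (hd : IsData φ₀ φ₁) (h : IsGHD φ₀ φ₁ Ω Φ) :
    IsMGHD φ₀ φ₁ (bigΩ φ₀ φ₁) (bigΦ φ₀ φ₁) :=
  ⟨isGHD_big hd h, fun _ _ h' hsub _ => Subset.antisymm (subset_bigΩ h') hsub⟩

/-- Every MGHD is the union of all GHDs. -/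
lemma IsMGHD.eq_big (hd : IsData φ₀ φ₁) (h : IsMGHD φ₀ φ₁ Ω Φ) :
    Ω = bigΩ φ₀ φ₁ ∧ EqOn Φ (bigΦ φ₀ φ₁) Ω := by
  have h1 : EqOn Φ (bigΦ φ₀ φ₁) Ω := fun p hp => (bigΦ_eq hd h.isGHD hp).symm
  exact ⟨(h.maximal _ _ (isGHD_big hd h.isGHD) (subset_bigΩ h.isGHD) h1.symm).symm, h1⟩

/-- There are no two distinct MGHDs. -/
theorem mghd_unique (hd : IsData φ₀ φ₁) {Ω₁ Ω₂ : Set (ℝ × ℝ)} {Φ₁ Φ₂ : ℝ × ℝ → ℝ}
    (h₁ : IsMGHD φ₀ φ₁ Ω₁ Φ₁) (h₂ : IsMGHD φ₀ φ₁ Ω₂ Φ₂) : Ω₁ = Ω₂ ∧ EqOn Φ₁ Φ₂ Ω₁ := by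
  obtain ⟨e1, f1⟩ := h₁.eq_big hd
  obtain ⟨e2, f2⟩ := h₂.eq_big hd
  refine ⟨e1.trans e2.symm, fun p hp => ?_⟩
  rw [f1 hp, f2 (by rw [e2, ← e1]; exact hp)]

end

end Pool.Agent.Q194.MGHD
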